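import Pool.Agent.N9.SP.Energy2

/-!
# Sums and products in function fields of every characteristic: the exponent 14/11

For fields with a valuation with finite residue field (of any characteristic, two included) and for
rings of polynomials over finite fields: `|A|¹⁴ ≤ C q⁶ log³ |A| |A + ε A|⁸ |A A|³` for all finite sets
`A` and all `ε ≠ 0`, in particular for the sets of sums and of differences.

The main tool is the Szemerédi-Trotter bound for the incidences between lines and Cartesian products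
in such fields (`Pool.Agent.N9.SP.incidence`, `Pool.Agent.N9.SP.rich_lines`): `m` balls cut a set into
`m + 1` pieces, and an affine map carries the `m` balls of one coordinate to `m` balls which form a
laminar family with the balls of the other one, so each line meets at most `2 m + 1` of the cells.
-/

set_option autoImplicit false

open Finset
open scoped Pointwise LaurentSeries

noncomputable section

namespace Pool.Agent.N9.SP.AC

open Pool.Agent.N9.SP

theorem log_bound (n : ℕ) (hn : 1 ≤ n) : ((Nat.log 2 n + 1 : ℕ) : ℝ) ≤ 2 * (1 + Real.log n) := by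
  have h1 : (2 : ℝ) ^ Nat.log 2 n ≤ n := by exact_mod_cast Nat.pow_log_le_self 2 (by omega)
  have h2 := Real.log_le_log (by positivity) h1
  rw [Real.log_pow] at h2
  have h3 : (0.5 : ℝ) < Real.log 2 := by linarith [Real.log_two_gt_d9]
  have h4 : (0 : ℝ) ≤ Nat.log 2 n := Nat.cast_nonneg _
  push_cast
  nlinarith

open Classical in
theorem energy_real {K Γ : Type*} [Field K] [LinearOrderedCommGroupWithZero Γ] (v : Valuation K Γ)
    {q : ℕ} (hq : EqDist v q) (A : Finset K) (ε : K) (hA : A.Nonempty) (hA0 : 0 ∉ A)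
    (hε : ε ≠ 0) :
    (mulEnergy A A : ℝ) ^ 3 * (A.card : ℝ) ^ 2 ≤ 2 ^ 36 * (q : ℝ) ^ 6 *
      (1 + Real.log A.card) ^ 3 * (((A ×ˢ A).image fun p => p.1 + ε * p.2).card : ℝ) ^ 8 := by
  have hn1 : 1 ≤ A.card := hA.card_pos
  obtain ⟨L, hL⟩ : ∃ L, L = Nat.log 2 A.card + 1 := ⟨_, rfl⟩
  have hlt : A.card < 2 ^ L := by
    rw [hL]
    exact Nat.lt_pow_succ_log_self (by norm_num) _
  have h3 := energy_all v hq A ((A ×ˢ A).image fun p => p.1 + ε * p.2)
    (fun a ha h => hA0 (h ▸ ha)) hn1 ε hε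
    (fun u hu a ha => mem_image.2 ⟨(u, a), mem_product.2 ⟨hu, ha⟩, rfl⟩) L hlt
  have h6 : (mulEnergy A A : ℝ) ^ 3 * (A.card : ℝ) ^ 2 ≤ 2 ^ 33 * (q : ℝ) ^ 6 * (L : ℝ) ^ 3 *
      (((A ×ˢ A).image fun p => p.1 + ε * p.2).card : ℝ) ^ 8 := by
    exact_mod_cast h3
  have h7 : (L : ℝ) ≤ 2 * (1 + Real.log A.card) := by
    rw [hL]
    exact log_bound _ hn1
  have h8 : (L : ℝ) ^ 3 ≤ (2 * (1 + Real.log A.card)) ^ 3 := by gcongr
  refine h6.trans ?_
  calc 2 ^ 33 * (q : ℝ) ^ 6 * (L : ℝ) ^ 3 *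
      (((A ×ˢ A).image fun p => p.1 + ε * p.2).card : ℝ) ^ 8 ≤
      2 ^ 33 * (q : ℝ) ^ 6 * (2 * (1 + Real.log A.card)) ^ 3 *
      (((A ×ˢ A).image fun p => p.1 + ε * p.2).card : ℝ) ^ 8 := by gcongr
    _ = _ := by ring

open Classical in
theorem product_real {K Γ : Type*} [Field K] [LinearOrderedCommGroupWithZero Γ] (v : Valuation K Γ)
    {q : ℕ} (hq : EqDist v q) (A : Finset K) (ε : K) (hA : A.Nonempty) (hε : ε ≠ 0) :
    (A.card : ℝ) ^ 14 ≤ 2 ^ 50 * (q : ℝ) ^ 6 * (1 + Real.log A.card) ^ 3 *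
      ((((A ×ˢ A).image fun p => p.1 + ε * p.2).card : ℝ) ^ 8 * ((A * A).card : ℝ) ^ 3) := by
  have hq1 : (1 : ℝ) ≤ q := by exact_mod_cast one_le_of_eqDist v hq
  obtain ⟨S, hS⟩ : ∃ S : Finset K → Finset K, ∀ A, S A = (A ×ˢ A).image fun p => p.1 + ε * p.2 :=
    ⟨_, fun _ => rfl⟩
  rw [← hS]
  have hS1 : (1 : ℝ) ≤ (S A).card := by
    have h1 : (S A).Nonempty := by
      rw [hS]
      exact (hA.product hA).image _
    exact_mod_cast h1.card_pos
  have hP1 : (1 : ℝ) ≤ (A * A).card := by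
    exact_mod_cast (hA.mul hA).card_pos
  have hA1 : 1 ≤ A.card := hA.card_pos
  rcases hA1.lt_or_eq with h | h
  · obtain ⟨A', hA'⟩ : ∃ A' : Finset K, A' = A.erase 0 := ⟨_, rfl⟩
    have hsub : A' ⊆ A := by
      rw [hA']
      exact erase_subset _ _
    have h0 : 0 ∉ A' := by
      rw [hA']
      exact notMem_erase _ _
    have hc : A.card ≤ 2 * A'.card := by
      have := pred_card_le_card_erase (s := A) (a := 0)
      rw [← hA'] at this
      omega
    have hne : A'.Nonempty := by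
      rw [← card_pos]
      omega
    have hc' : (A.card : ℝ) ≤ 2 * A'.card := by exact_mod_cast hc
    have hA'1 : (1 : ℝ) ≤ A'.card := by exact_mod_cast hne.card_pos
    have hA'A : (A'.card : ℝ) ≤ A.card := by exact_mod_cast card_le_card hsub
    have h3 := energy_real v hq A' ε hne h0 hε
    rw [← hS] at h3
    have h4 : (A'.card : ℝ) ^ 2 * (A'.card : ℝ) ^ 2 ≤ (A' * A').card * mulEnergy A' A' := by
      exact_mod_cast le_card_mul_mul_mulEnergy A' A'
    have h5 : ((S A').card : ℝ) ≤ (S A).card := by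
      have h6 : S A' ⊆ S A := by
        rw [hS, hS]
        exact image_subset_image (product_subset_product hsub hsub)
      exact_mod_cast card_le_card h6
    have h6 : ((A' * A').card : ℝ) ≤ (A * A).card := by
      exact_mod_cast card_le_card (mul_subset_mul hsub hsub)
    have hlog' : (0 : ℝ) ≤ Real.log A'.card := Real.log_nonneg hA'1
    have h7 : 1 + Real.log A'.card ≤ 1 + Real.log A.card := by
      have := Real.log_le_log (by linarith) hA'A
      linarith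
    have h8 : (1 + Real.log A'.card) ^ 3 ≤ (1 + Real.log A.card) ^ 3 := by gcongr
    have h9 : (A'.card : ℝ) ^ 14 ≤ ((A' * A').card : ℝ) ^ 3 *
        ((mulEnergy A' A' : ℝ) ^ 3 * (A'.card : ℝ) ^ 2) := by
      calc (A'.card : ℝ) ^ 14 = ((A'.card : ℝ) ^ 2 * (A'.card : ℝ) ^ 2) ^ 3 * (A'.card : ℝ) ^ 2 := by
            ring
        _ ≤ ((A' * A').card * mulEnergy A' A') ^ 3 * (A'.card : ℝ) ^ 2 := by gcongr
        _ = _ := by ring
    calc (A.card : ℝ) ^ 14 ≤ (2 * A'.card) ^ 14 := by gcongr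
      _ = 2 ^ 14 * (A'.card : ℝ) ^ 14 := by ring
      _ ≤ 2 ^ 14 * (((A' * A').card : ℝ) ^ 3 * (2 ^ 36 * (q : ℝ) ^ 6 *
            (1 + Real.log A'.card) ^ 3 * ((S A').card : ℝ) ^ 8)) := by
          refine mul_le_mul_of_nonneg_left (h9.trans ?_) (by positivity)
          exact mul_le_mul_of_nonneg_left h3 (by positivity)
      _ ≤ 2 ^ 14 * (((A * A).card : ℝ) ^ 3 * (2 ^ 36 * (q : ℝ) ^ 6 *
            (1 + Real.log A.card) ^ 3 * ((S A).card : ℝ) ^ 8)) := by gcongr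
      _ = _ := by ring
  · rw [← h]
    simp only [Nat.cast_one, one_pow, Real.log_one, add_zero, mul_one]
    have h3 : (1 : ℝ) ≤ ((S A).card : ℝ) ^ 8 := one_le_pow₀ hS1
    have h4 : (1 : ℝ) ≤ ((A * A).card : ℝ) ^ 3 := one_le_pow₀ hP1
    have h5 : (1 : ℝ) ≤ (q : ℝ) ^ 6 := one_le_pow₀ hq1
    have h6 : (1 : ℝ) ≤ ((S A).card : ℝ) ^ 8 * ((A * A).card : ℝ) ^ 3 := by nlinarith
    have h7 : (1 : ℝ) ≤ 2 ^ 50 * (q : ℝ) ^ 6 := by
      have : (1 : ℝ) ≤ 2 ^ 50 := by norm_num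
      nlinarith
    nlinarith

/-- transport to the subrings -/
theorem product_embed {K Γ R : Type*} [Field K] [LinearOrderedCommGroupWithZero Γ]
    (v : Valuation K Γ) {q : ℕ} (hq : EqDist v q) [CommRing R] [DecidableEq R] (φ : R →+* K)
    (hφ : Function.Injective φ) (A : Finset R) (ε : R) (hA : A.Nonempty) (hε : ε ≠ 0) :
    (A.card : ℝ) ^ 14 ≤ 2 ^ 50 * (q : ℝ) ^ 6 * (1 + Real.log A.card) ^ 3 *
      ((((A ×ˢ A).image fun p => p.1 + ε * p.2).card : ℝ) ^ 8 * ((A * A).card : ℝ) ^ 3) := by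
  classical
  have hε' : φ ε ≠ 0 := by
    intro h
    exact hε (hφ (h.trans (map_zero φ).symm))
  have h1 := product_real v hq (A.image φ) (φ ε) (hA.image φ) hε'
  have h3 : ((A.image φ ×ˢ A.image φ).image fun p => p.1 + φ ε * p.2) =
      ((A ×ˢ A).image fun p => p.1 + ε * p.2).image φ := by
    ext x
    simp only [mem_image, mem_product, Prod.exists]
    constructor
    · rintro ⟨a, b, ⟨⟨a', ha', rfl⟩, ⟨b', hb', rfl⟩⟩, rfl⟩
      exact ⟨a' + ε * b', ⟨a', b', ⟨ha', hb'⟩, rfl⟩, by rw [map_add, map_mul]⟩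
    · rintro ⟨y, ⟨a', b', ⟨ha', hb'⟩, rfl⟩, rfl⟩
      exact ⟨φ a', φ b', ⟨⟨a', ha', rfl⟩, ⟨b', hb', rfl⟩⟩, by rw [map_add, map_mul]⟩
  have h4 : A.image φ * A.image φ = (A * A).image φ := (image_mul φ).symm
  rw [h3, h4, card_image_of_injective _ hφ, card_image_of_injective _ hφ,
    card_image_of_injective _ hφ] at h1
  exact h1

/-- the passage to the maximum -/
theorem max_bound {C δ : ℝ} (hC : 1 ≤ C) (hδ : 0 < δ) : ∃ c : ℝ, 0 < c ∧ ∀ n s p : ℝ, 1 ≤ n →
    0 ≤ s → 0 ≤ p → n ^ (14 : ℕ) ≤ C * (1 + Real.log n) ^ 3 * (s ^ 8 * p ^ 3) →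
    c * n ^ (14 / 11 - δ) ≤ max s p := by
  obtain ⟨η, hη⟩ : ∃ η : ℝ, η = 11 / 3 * δ := ⟨_, rfl⟩
  have hη0 : 0 < η := by rw [hη]; positivity
  obtain ⟨D, hD⟩ : ∃ D : ℝ, D = C * (1 + 1 / η) ^ 3 := ⟨_, rfl⟩
  have hD0 : 0 < D := by rw [hD]; positivity
  refine ⟨D ^ (-(1 / 11) : ℝ), Real.rpow_pos_of_pos hD0 _, ?_⟩
  intro n s p hn hs hp h
  have hn0 : 0 < n := by linarith
  obtain ⟨M, hM⟩ : ∃ M, M = max s p := ⟨_, rfl⟩
  have hsM : s ≤ M := by rw [hM]; exact le_max_left _ _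
  have hpM : p ≤ M := by rw [hM]; exact le_max_right _ _
  have hM0 : 0 ≤ M := hs.trans hsM
  rw [← hM]
  have hlog : 1 + Real.log n ≤ (1 + 1 / η) * n ^ η := by
    have h1 := Real.log_le_rpow_div hn0.le hη0
    have h2 : 1 ≤ n ^ η := Real.one_le_rpow hn hη0.le
    calc 1 + Real.log n ≤ n ^ η + n ^ η / η := by linarith
      _ = _ := by ring
  have hlog0 : 0 ≤ 1 + Real.log n := by
    have := Real.log_nonneg hn
    linarith
  have h1 : n ^ (14 : ℕ) ≤ D * n ^ (11 * δ) * M ^ 11 := by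
    refine h.trans ?_
    have h2 : (1 + Real.log n) ^ 3 ≤ ((1 + 1 / η) * n ^ η) ^ 3 := by gcongr
    have h3 : (n ^ η) ^ 3 = n ^ (11 * δ) := by
      rw [← Real.rpow_natCast, ← Real.rpow_mul hn0.le, hη]
      congr 1
      push_cast
      ring
    calc C * (1 + Real.log n) ^ 3 * (s ^ 8 * p ^ 3) ≤
        C * ((1 + 1 / η) * n ^ η) ^ 3 * (M ^ 8 * M ^ 3) := by gcongr
      _ = C * (1 + 1 / η) ^ 3 * (n ^ η) ^ 3 * M ^ 11 := by ring
      _ = _ := by rw [h3, hD]
  have h2 : (D ^ (-(1 / 11) : ℝ) * n ^ (14 / 11 - δ)) ^ (11 : ℕ) ≤ M ^ 11 := by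
    have h3 : (D ^ (-(1 / 11) : ℝ)) ^ (11 : ℕ) = D⁻¹ := by
      rw [← Real.rpow_natCast, ← Real.rpow_mul hD0.le, ← Real.rpow_neg_one]
      congr 1
      norm_num
    have h4 : (n ^ (14 / 11 - δ)) ^ (11 : ℕ) = n ^ (14 : ℕ) * n ^ (-(11 * δ)) := by
      rw [← Real.rpow_natCast, ← Real.rpow_natCast, ← Real.rpow_mul hn0.le, ← Real.rpow_add hn0]
      congr 1
      push_cast
      ring
    rw [mul_pow, h3, h4]
    have h5 : 0 ≤ D⁻¹ * n ^ (-(11 * δ)) := by positivity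
    calc D⁻¹ * (n ^ (14 : ℕ) * n ^ (-(11 * δ))) = (D⁻¹ * n ^ (-(11 * δ))) * n ^ (14 : ℕ) := by ring
      _ ≤ (D⁻¹ * n ^ (-(11 * δ))) * (D * n ^ (11 * δ) * M ^ 11) := mul_le_mul_of_nonneg_left h1 h5
      _ = (D⁻¹ * D) * (n ^ (-(11 * δ)) * n ^ (11 * δ)) * M ^ 11 := by ring
      _ = M ^ 11 := by
          rw [inv_mul_cancel₀ hD0.ne', ← Real.rpow_add hn0, neg_add_cancel, Real.rpow_zero]
          ring
  exact le_of_pow_le_pow_left₀ (by norm_num) hM0 h2

end Pool.Agent.N9.SP.AC
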