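import Mathlib

/-!
# Sums and products in valued fields with finite residue field: the core of the argument
-/

set_option autoImplicit false

open Finset
open scoped Pointwise

noncomputable section

namespace Pool.Agent.N9.SP

/-- every nonempty finite set has a median for each function with values in a linear order -/
theorem median {ι Γ : Type*} [LinearOrder Γ] (X : Finset ι) (f : ι → Γ) (hX : X.Nonempty) :
    ∃ m : Γ, X.card ≤ 2 * (X.filter fun a => f a ≤ m).card ∧
      X.card ≤ 2 * (X.filter fun a => m ≤ f a).card := by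
  classical
  obtain ⟨V, hV⟩ : ∃ V : Finset Γ, V = (X.image f).filter
    (fun g => X.card ≤ 2 * (X.filter fun a => f a ≤ g).card) := ⟨_, rfl⟩
  have hVn : V.Nonempty := by
    refine ⟨(X.image f).max' (hX.image f), ?_⟩
    rw [hV, mem_filter]
    refine ⟨max'_mem _ _, ?_⟩
    rw [filter_true_of_mem]
    · omega
    · intro a ha
      exact le_max' _ _ (mem_image_of_mem f ha)
  obtain ⟨m, hm⟩ : ∃ m, m = V.min' hVn := ⟨_, rfl⟩
  have hmV : m ∈ V := by rw [hm]; exact V.min'_mem hVn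
  have hmin : ∀ g ∈ V, m ≤ g := fun g hg => by rw [hm]; exact V.min'_le g hg
  refine ⟨m, ?_, ?_⟩
  · rw [hV, mem_filter] at hmV
    exact hmV.2
  by_contra hcon
  push Not at hcon
  have hsplit : (X.filter fun a => f a < m).card + (X.filter fun a => m ≤ f a).card = X.card := by
    rw [← card_filter_add_card_filter_not (s := X) (fun a => f a < m)]
    congr 2
    ext a
    simp only [not_lt]
  have hne : (X.filter fun a => f a < m).Nonempty := by
    rw [← card_pos]
    omega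
  obtain ⟨a, ha, hmax⟩ := exists_max_image _ f hne
  rw [mem_filter] at ha
  have h1 : (X.filter fun b => f b ≤ f a) = X.filter fun b => f b < m := by
    ext b
    rw [mem_filter, mem_filter]
    constructor
    · rintro ⟨hb, h⟩
      exact ⟨hb, lt_of_le_of_lt h ha.2⟩
    · rintro ⟨hb, h⟩
      exact ⟨hb, hmax b (mem_filter.2 ⟨hb, h⟩)⟩
  have h2 : f a ∈ V := by
    rw [hV, mem_filter, h1]
    refine ⟨mem_image_of_mem f ha.1, ?_⟩
    omega
  exact absurd (hmin _ h2) (not_le.2 ha.2)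

variable {K Γ : Type*} [Field K] [LinearOrderedCommGroupWithZero Γ] (v : Valuation K Γ)

/-- distances -/
theorem v_symm (x y : K) : v (x - y) = v (y - x) := by
  rw [← Valuation.map_neg v (x - y), neg_sub]

/-- the ultrametric inequality -/
theorem v_tri (x y z : K) : v (x - z) ≤ max (v (x - y)) (v (y - z)) := by
  have h := Valuation.map_add v (x - y) (y - z)
  rwa [sub_add_sub_cancel] at h

/-- sets of points with equal distances have at most `q` elements -/
def EqDist (q : ℕ) : Prop := ∀ T : Finset K, ∀ γ : Γ,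
  (∀ x ∈ T, ∀ y ∈ T, x ≠ y → v (x - y) = γ) → T.card ≤ q

open Classical in
/-- the sums which come from elements of equal value: few of them for each slope `σ` -/
theorem overlapM {q : ℕ} (hq : EqDist v q) (S : Finset K) (σ : K) (μ : K → K) (M : Finset K)
    (hMS : M ⊆ S)
    (h1 : ∀ l ∈ M, μ l ∈ S ∧ μ l ≠ l ∧ ∀ ν ∈ S, ν ≠ l → v (μ l - l) ≤ v (ν - l))
    (h2 : ∀ l ∈ M, v (σ - l) = v (μ l - l) ∧ v (σ - μ l) = v (μ l - l))
    (h3 : ∀ l ∈ M, ∀ ν ∈ S, ν ≠ l → v (ν - l) = v (μ l - l) →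
      (S.filter fun κ => v (κ - ν) < v (μ l - l)).card ≤
        (S.filter fun κ => v (κ - μ l) < v (μ l - l)).card) (k : ℕ) :
    ∀ T : Set Γ, IsLowerSet T → (S.filter fun ν => v (ν - σ) ∈ T).card < 2 ^ k →
      (M.filter fun l => v (μ l - l) ∈ T).card ≤ q * k := by
  induction k with
  | zero =>
    intro T _ hcard
    rw [pow_zero, Nat.lt_one_iff, card_eq_zero] at hcard
    rw [mul_zero, Nat.le_zero, card_eq_zero, filter_eq_empty_iff]
    intro l hl hlT
    have h4 : l ∈ S.filter fun ν => v (ν - σ) ∈ T := by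
      rw [mem_filter, v_symm, (h2 l hl).1]
      exact ⟨hMS hl, hlT⟩
    rw [hcard] at h4
    exact absurd h4 (notMem_empty l)
  | succ k ih =>
    intro T hT hcard
    rcases (M.filter fun l => v (μ l - l) ∈ T).eq_empty_or_nonempty with hD | hD
    · rw [hD, card_empty]
      exact Nat.zero_le _
    obtain ⟨l0, hl0, hmax⟩ := exists_max_image _ (fun l => v (μ l - l)) hD
    rw [mem_filter] at hl0
    obtain ⟨ρ, hρ⟩ : ∃ ρ, ρ = v (μ l0 - l0) := ⟨_, rfl⟩
    obtain ⟨hlM, hρT⟩ := hl0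
    rw [← hρ] at hρT
    have hmax' : ∀ l ∈ M, v (μ l - l) ∈ T → v (μ l - l) ≤ ρ := by
      intro l hl hlT
      rw [hρ]
      exact hmax l (mem_filter.2 ⟨hl, hlT⟩)
    obtain ⟨hμS, hμl, hμmin⟩ := h1 l0 hlM
    obtain ⟨hσl, hσμ⟩ := h2 l0 hlM
    rw [← hρ] at hσl hσμ hμmin
    -- splitting
    obtain ⟨I, hI, hIl⟩ : ∃ I : Set Γ, (∀ x, x ∈ I ↔ x < ρ) ∧ IsLowerSet I :=
      ⟨Set.Iio ρ, fun x => Iff.rfl, isLowerSet_Iio ρ⟩
    have hsub : (M.filter fun l => v (μ l - l) ∈ T) ⊆
        (M.filter fun l => v (μ l - l) = ρ) ∪ (M.filter fun l => v (μ l - l) ∈ I) := by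
      intro l hl
      rw [mem_filter] at hl
      rw [mem_union, mem_filter, mem_filter]
      rcases (hmax' l hl.1 hl.2).lt_or_eq with h | h
      · exact Or.inr ⟨hl.1, (hI _).2 h⟩
      · exact Or.inl ⟨hl.1, h⟩
    have hD1 : (M.filter fun l => v (μ l - l) = ρ).card ≤ q := by
      refine hq _ ρ fun x hx y hy hxy => ?_
      rw [mem_filter] at hx hy
      refine le_antisymm ?_ ?_
      · refine (v_tri v x σ y).trans (max_le ?_ ?_)
        · rw [v_symm, (h2 x hx.1).1, hx.2]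
        · rw [(h2 y hy.1).1, hy.2]
      · have h4 := (h1 x hx.1).2.2 y (hMS hy.1) (Ne.symm hxy)
        rw [hx.2] at h4
        rw [v_symm]
        exact h4
    have hD2 : (M.filter fun l => v (μ l - l) ∈ I).card ≤ q * k := by
      refine ih I hIl ?_
      have hA : (S.filter fun ν => v (ν - σ) ∈ I).card ≤
          (S.filter fun κ => v (κ - μ l0) < ρ).card := by
        rcases (S.filter fun ν => v (ν - σ) ∈ I).eq_empty_or_nonempty with h | ⟨ν, hν⟩
        · rw [h, card_empty]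
          exact Nat.zero_le _
        rw [mem_filter, hI] at hν
        have hνl : v (ν - l0) = ρ := by
          have h4 : ν - l0 = (ν - σ) + (σ - l0) := by ring
          rw [h4, Valuation.map_add_eq_of_lt_right v (by rw [hσl]; exact hν.2), hσl]
        have hνne : ν ≠ l0 := by
          intro h
          rw [h, v_symm, hσl] at hν
          exact lt_irrefl _ hν.2
        have h5 := h3 l0 hlM ν hν.1 hνne (by rw [hνl, hρ])
        rw [← hρ] at h5
        refine le_trans (card_le_card ?_) h5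
        intro κ hκ
        rw [mem_filter, hI] at hκ
        rw [mem_filter]
        refine ⟨hκ.1, lt_of_le_of_lt (v_tri v κ σ ν) (max_lt hκ.2 ?_)⟩
        rw [v_symm]
        exact hν.2
      have hdisj : Disjoint (S.filter fun ν => v (ν - σ) ∈ I)
          (S.filter fun κ => v (κ - μ l0) < ρ) := by
        rw [disjoint_left]
        intro κ h4 h5
        rw [mem_filter, hI] at h4
        rw [mem_filter] at h5
        have h6 : v (σ - μ l0) < ρ := by
          refine lt_of_le_of_lt (v_tri v σ κ (μ l0)) (max_lt ?_ h5.2)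
          rw [v_symm]
          exact h4.2
        rw [hσμ] at h6
        exact lt_irrefl _ h6
      have hun : (S.filter fun ν => v (ν - σ) ∈ I) ∪ (S.filter fun κ => v (κ - μ l0) < ρ) ⊆
          S.filter fun ν => v (ν - σ) ∈ T := by
        intro κ hκ
        rw [mem_union, mem_filter, mem_filter, hI] at hκ
        rw [mem_filter]
        rcases hκ with hκ | hκ
        · exact ⟨hκ.1, hT hκ.2.le hρT⟩
        · refine ⟨hκ.1, hT ?_ hρT⟩
          refine (v_tri v κ (μ l0) σ).trans (max_le hκ.2.le ?_)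
          rw [v_symm, hσμ]
      have h6 := card_le_card hun
      rw [card_union_of_disjoint hdisj] at h6
      rw [pow_succ] at hcard
      omega
    calc (M.filter fun l => v (μ l - l) ∈ T).card ≤ _ := card_le_card hsub
      _ ≤ _ := card_union_le _ _
      _ ≤ q + q * k := add_le_add hD1 hD2
      _ = q * (k + 1) := by ring

open Classical in
/-- the choice of the partner of a slope -/
theorem partner {τ : ℕ} (S : Finset K) (X : K → Finset K) (e : Γ) (l : K) (hl : l ∈ S)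
    (hS : 2 ≤ S.card) (hX : ∀ μ ∈ S, τ ≤ 2 * ((X μ).filter fun b => v b ≤ e).card) :
    ∃ (μ : K) (Y : Finset K), μ ∈ S ∧ μ ≠ l ∧ (∀ ν ∈ S, ν ≠ l → v (μ - l) ≤ v (ν - l)) ∧
      Y ⊆ X μ ∧ τ ≤ 4 * Y.card ∧ (∀ b ∈ Y, v b ≤ e) ∧
      ((∀ b ∈ Y, v b < e) ∨ ((∀ b ∈ Y, v b = e) ∧ ∀ ν ∈ S, ν ≠ l → v (ν - l) = v (μ - l) →
        (S.filter fun κ => v (κ - ν) < v (μ - l)).card ≤
          (S.filter fun κ => v (κ - μ) < v (μ - l)).card)) := by
  have hne : (S.erase l).Nonempty := by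
    rw [← card_pos, card_erase_of_mem hl]
    omega
  obtain ⟨μ0, hμ0, hmin⟩ := exists_min_image (S.erase l) (fun μ => v (μ - l)) hne
  rw [mem_erase] at hμ0
  obtain ⟨r, hr⟩ : ∃ r, r = v (μ0 - l) := ⟨_, rfl⟩
  have hmin' : ∀ ν ∈ S, ν ≠ l → r ≤ v (ν - l) := fun ν hν hνl => by
    rw [hr]
    exact hmin ν (mem_erase.2 ⟨hνl, hν⟩)
  obtain ⟨N, hN⟩ : ∃ N : Finset K, N = S.filter fun ν => ν ≠ l ∧ v (ν - l) = r := ⟨_, rfl⟩
  have hNne : N.Nonempty := ⟨μ0, by rw [hN, mem_filter]; exact ⟨hμ0.2, hμ0.1, hr.symm⟩⟩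
  by_cases h : ∃ μ ∈ N, τ ≤ 4 * ((X μ).filter fun b => v b < e).card
  · obtain ⟨μ, hμN, hμ⟩ := h
    rw [hN, mem_filter] at hμN
    refine ⟨μ, (X μ).filter fun b => v b < e, hμN.1, hμN.2.1, ?_, filter_subset _ _, hμ, ?_,
      Or.inl ?_⟩
    · rw [hμN.2.2]
      exact hmin'
    · intro b hb
      exact (mem_filter.1 hb).2.le
    · intro b hb
      exact (mem_filter.1 hb).2
  · push Not at h
    obtain ⟨μ, hμN, hmax⟩ := exists_max_image N
      (fun μ => (S.filter fun κ => v (κ - μ) < r).card) hNne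
    have h1 := h μ hμN
    rw [hN, mem_filter] at hμN
    have h2 := hX μ hμN.1
    have h3 : ((X μ).filter fun b => v b ≤ e).card ≤ ((X μ).filter fun b => v b < e).card +
        ((X μ).filter fun b => v b = e).card := by
      refine le_trans (card_le_card ?_) (card_union_le _ _)
      intro b hb
      rw [mem_filter] at hb
      rw [mem_union, mem_filter, mem_filter]
      rcases hb.2.lt_or_eq with h | h
      · exact Or.inl ⟨hb.1, h⟩
      · exact Or.inr ⟨hb.1, h⟩
    refine ⟨μ, (X μ).filter fun b => v b = e, hμN.1, hμN.2.1, ?_, filter_subset _ _, ?_, ?_,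
      Or.inr ⟨?_, ?_⟩⟩
    · rw [hμN.2.2]
      exact hmin'
    · omega
    · intro b hb
      exact (mem_filter.1 hb).2.le
    · intro b hb
      exact (mem_filter.1 hb).2
    · intro ν hν hνl hνr
      rw [hμN.2.2] at hνr ⊢
      exact hmax ν (by rw [hN, mem_filter]; exact ⟨hν, hνl, hνr⟩)

open Classical in
/-- few slopes for each point -/
theorem overlap {q : ℕ} (hq : EqDist v q) (S : Finset K) (e : Γ) (he : e ≠ 0) (x y : K)
    (hx : v x = e) (I : Finset K) (hIS : I ⊆ S) (μ : K → K)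
    (hμ : ∀ l ∈ I, μ l ∈ S ∧ μ l ≠ l ∧ ∀ ν ∈ S, ν ≠ l → v (μ l - l) ≤ v (ν - l))
    (hI : ∀ l ∈ I, ∃ a b : K, v a = e ∧ a + b = x ∧ l * a + μ l * b = y ∧
      (v b < e ∨ (v b = e ∧ ∀ ν ∈ S, ν ≠ l → v (ν - l) = v (μ l - l) →
        (S.filter fun κ => v (κ - ν) < v (μ l - l)).card ≤
          (S.filter fun κ => v (κ - μ l) < v (μ l - l)).card))) (k : ℕ) (hk : S.card < 2 ^ k) :
    I.card ≤ 1 + q * k := by
  have hx0 : x ≠ 0 := by
    intro h
    rw [h, map_zero] at hx
    exact he hx.symm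
  obtain ⟨σ, hσ⟩ : ∃ σ, σ = y / x := ⟨_, rfl⟩
  have hσl : ∀ l a b : K, a + b = x → l * a + μ l * b = y →
      σ - l = (μ l - l) * b / x ∧ σ - μ l = (l - μ l) * a / x := by
    intro l a b h1 h2
    rw [hσ, ← h2, ← h1]
    rw [← h1] at hx0
    constructor
    · field_simp
      ring
    · field_simp
      ring
  obtain ⟨L, hL⟩ : ∃ L : Finset K, L = I.filter fun l => v (σ - l) < v (μ l - l) := ⟨_, rfl⟩
  obtain ⟨M, hM⟩ : ∃ M : Finset K, M = I.filter fun l => ¬ v (σ - l) < v (μ l - l) := ⟨_, rfl⟩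
  have hLM : I.card = L.card + M.card := by
    rw [hL, hM, card_filter_add_card_filter_not]
  have hL1 : L.card ≤ 1 := by
    rw [card_le_one]
    intro l hl l' hl'
    rw [hL, mem_filter] at hl hl'
    by_contra hne
    have h1 := (hμ l hl.1).2.2 l' (hIS hl'.1) (Ne.symm hne)
    have h2 := (hμ l' hl'.1).2.2 l (hIS hl.1) hne
    have h3 := v_tri v l σ l'
    rw [v_symm v l σ] at h3
    rcases le_max_iff.1 h3 with h4 | h4
    · have h5 := lt_of_le_of_lt h4 hl.2
      rw [v_symm] at h5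
      exact absurd h1 (not_le.2 h5)
    · exact absurd h2 (not_le.2 (lt_of_le_of_lt h4 hl'.2))
  have hMc : ∀ l ∈ M, (v (σ - l) = v (μ l - l) ∧ v (σ - μ l) = v (μ l - l)) ∧
      ∀ ν ∈ S, ν ≠ l → v (ν - l) = v (μ l - l) →
        (S.filter fun κ => v (κ - ν) < v (μ l - l)).card ≤
          (S.filter fun κ => v (κ - μ l) < v (μ l - l)).card := by
    intro l hl
    rw [hM, mem_filter] at hl
    obtain ⟨a, b, ha, hab, hy, hb⟩ := hI l hl.1
    obtain ⟨h1, h2⟩ := hσl l a b hab hy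
    have hne : v (μ l - l) ≠ 0 := by
      rw [Valuation.ne_zero_iff]
      exact sub_ne_zero.2 (hμ l hl.1).2.1
    rcases hb with hb | ⟨hb, hheavy⟩
    · exfalso
      apply hl.2
      rw [h1, map_div₀, map_mul, hx, mul_div_assoc]
      have h3 : v b / e < 1 := by
        rw [div_lt_one₀ (zero_lt_iff.2 he)]
        exact hb
      calc v (μ l - l) * (v b / e) < v (μ l - l) * 1 :=
            mul_lt_mul_of_pos_left h3 (zero_lt_iff.2 hne)
        _ = _ := mul_one _
    · refine ⟨⟨?_, ?_⟩, hheavy⟩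
      · rw [h1, map_div₀, map_mul, hx, hb, mul_div_assoc, div_self he, mul_one]
      · rw [h2, map_div₀, map_mul, hx, ha, mul_div_assoc, div_self he, mul_one, v_symm]
  have hM1 : M.card ≤ q * k := by
    have hMI : M ⊆ I := by
      rw [hM]
      exact filter_subset _ _
    obtain ⟨U, hU, hUl⟩ : ∃ U : Set Γ, (∀ x, x ∈ U) ∧ IsLowerSet U :=
      ⟨Set.univ, fun x => Set.mem_univ x, isLowerSet_univ⟩
    have h1 := overlapM v hq S σ μ M (hMI.trans hIS) (fun l hl => hμ l (hMI hl))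
      (fun l hl => (hMc l hl).1) (fun l hl => (hMc l hl).2) k U hUl
      (lt_of_le_of_lt (card_le_card (filter_subset _ _)) hk)
    rw [filter_true_of_mem] at h1
    · exact h1
    · intro l _
      exact hU _
  omega

open Classical in
/-- many sums from many rich slopes -/
theorem core {q : ℕ} (hq : EqDist v q) (A B Λ : Finset K) (X : K → Finset K) (τ : ℕ)
    (hA0 : ∀ a ∈ A, a ≠ 0) (hN : ∀ a ∈ A, ∀ b ∈ A, v (a + b) = max (v a) (v b))
    (hXA : ∀ l ∈ Λ, X l ⊆ A) (hXB : ∀ l ∈ Λ, ∀ a ∈ X l, l * a ∈ B)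
    (hcard : ∀ l ∈ Λ, (X l).card = τ) (hτ : 0 < τ) (k : ℕ) (hk : Λ.card < 2 ^ k) :
    (Λ.card - 1) * τ ^ 2 ≤ 8 * ((1 + q * k) * ((A + A).card * (B + B).card)) := by
  have hmed : ∀ l, ∃ m : Γ, l ∈ Λ → τ ≤ 2 * ((X l).filter fun a => v a ≤ m).card ∧
      τ ≤ 2 * ((X l).filter fun a => m ≤ v a).card := by
    intro l
    by_cases hl : l ∈ Λ
    · obtain ⟨m, h1, h2⟩ := median (X l) (fun a => v a) (by
        rw [← card_pos, hcard l hl]
        exact hτ)
      rw [hcard l hl] at h1 h2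
      exact ⟨m, fun _ => ⟨h1, h2⟩⟩
    · exact ⟨0, fun h => absurd h hl⟩
  choose m hm using hmed
  obtain ⟨S, hS⟩ : ∃ S : Γ → Finset K, ∀ e, S e = Λ.filter fun l => m l ≤ e := ⟨_, fun _ => rfl⟩
  have hSΛ : ∀ e, S e ⊆ Λ := fun e => by rw [hS]; exact filter_subset _ _
  have hpart : ∀ (l : K) (e : Γ), ∃ (p : K × Finset K), l ∈ S e → 2 ≤ (S e).card →
      p.1 ∈ S e ∧ p.1 ≠ l ∧ (∀ ν ∈ S e, ν ≠ l → v (p.1 - l) ≤ v (ν - l)) ∧
      p.2 ⊆ X p.1 ∧ τ ≤ 4 * p.2.card ∧ (∀ b ∈ p.2, v b ≤ e) ∧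
      ((∀ b ∈ p.2, v b < e) ∨ ((∀ b ∈ p.2, v b = e) ∧
        ∀ ν ∈ S e, ν ≠ l → v (ν - l) = v (p.1 - l) →
        ((S e).filter fun κ => v (κ - ν) < v (p.1 - l)).card ≤
          ((S e).filter fun κ => v (κ - p.1) < v (p.1 - l)).card)) := by
    intro l e
    by_cases h : l ∈ S e ∧ 2 ≤ (S e).card
    · obtain ⟨μ, Y, h1⟩ := partner (τ := τ) v (S e) X e l h.1 h.2 (by
        intro μ hμ
        have hμ' := hμ
        rw [hS, mem_filter] at hμ'
        refine (hm μ hμ'.1).1.trans (Nat.mul_le_mul_left 2 (card_le_card ?_))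
        intro b hb
        rw [mem_filter] at hb ⊢
        exact ⟨hb.1, hb.2.trans hμ'.2⟩)
      exact ⟨(μ, Y), fun _ _ => h1⟩
    · exact ⟨(0, ∅), fun h1 h2 => absurd ⟨h1, h2⟩ h⟩
  choose p hp using hpart
  -- the triples
  obtain ⟨T, hT⟩ : ∃ T : Finset (Σ _ : K, Σ _ : K, K), T = Λ.sigma fun l =>
      ((X l).filter fun a => m l ≤ v a ∧ 2 ≤ (S (v a)).card).sigma fun a => (p l (v a)).2 :=
    ⟨_, rfl⟩
  obtain ⟨φ, hφ⟩ : ∃ φ : (Σ _ : K, Σ _ : K, K) → K × K, ∀ t, φ t =
      (t.2.1 + t.2.2, t.1 * t.2.1 + (p t.1 (v t.2.1)).1 * t.2.2) := ⟨_, fun _ => rfl⟩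
  have hTm : ∀ t, t ∈ T ↔ t.1 ∈ Λ ∧ (t.2.1 ∈ X t.1 ∧ m t.1 ≤ v t.2.1 ∧ 2 ≤ (S (v t.2.1)).card) ∧
      t.2.2 ∈ (p t.1 (v t.2.1)).2 := by
    intro t
    rw [hT, mem_sigma, mem_sigma, mem_filter]
  have hTS : ∀ t ∈ T, t.1 ∈ S (v t.2.1) := by
    intro t ht
    rw [hTm] at ht
    rw [hS, mem_filter]
    exact ⟨ht.1, ht.2.1.2.1⟩
  have hTp := fun (t : Σ _ : K, Σ _ : K, K) (ht : t ∈ T) =>
    hp t.1 (v t.2.1) (hTS t ht) ((hTm t).1 ht).2.1.2.2
  have hTa : ∀ t ∈ T, t.2.1 ∈ A := fun t ht => hXA _ ((hTm t).1 ht).1 ((hTm t).1 ht).2.1.1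
  have hTμ : ∀ t ∈ T, (p t.1 (v t.2.1)).1 ∈ Λ := fun t ht => hSΛ _ (hTp t ht).1
  have hTbX : ∀ t ∈ T, t.2.2 ∈ X (p t.1 (v t.2.1)).1 := fun t ht =>
    (hTp t ht).2.2.2.1 ((hTm t).1 ht).2.2
  have hTb : ∀ t ∈ T, t.2.2 ∈ A := fun t ht => hXA _ (hTμ t ht) (hTbX t ht)
  have hTv : ∀ t ∈ T, v (t.2.1 + t.2.2) = v t.2.1 := by
    intro t ht
    rw [hN _ (hTa t ht) _ (hTb t ht), max_eq_left]
    exact (hTp t ht).2.2.2.2.2.1 _ ((hTm t).1 ht).2.2
  -- upper bound
  have hup : T.card ≤ (1 + q * k) * ((A + A) ×ˢ (B + B)).card := by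
    refine card_le_mul_card_image_of_maps_to (f := φ) ?_ _ ?_
    · intro t ht
      rw [hφ, mem_product]
      exact ⟨add_mem_add (hTa t ht) (hTb t ht),
        add_mem_add (hXB _ ((hTm t).1 ht).1 _ ((hTm t).1 ht).2.1.1)
          (hXB _ (hTμ t ht) _ (hTbX t ht))⟩
    · rintro ⟨x, y⟩ _
      obtain ⟨F, hF⟩ : ∃ F : Finset (Σ _ : K, Σ _ : K, K), F = T.filter fun t => φ t = (x, y) :=
        ⟨_, rfl⟩
      rw [← hF]
      have hFx : ∀ t ∈ F, t ∈ T ∧ t.2.1 + t.2.2 = x ∧
          t.1 * t.2.1 + (p t.1 (v t.2.1)).1 * t.2.2 = y := by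
        intro t ht
        rw [hF, mem_filter, hφ, Prod.mk.injEq] at ht
        exact ht
      have hFv : ∀ t ∈ F, v t.2.1 = v x := by
        intro t ht
        obtain ⟨h1, h2, _⟩ := hFx t ht
        rw [← h2, hTv t h1]
      rcases F.eq_empty_or_nonempty with h0 | ⟨t0, ht0⟩
      · rw [h0, card_empty]
        exact Nat.zero_le _
      have he : v x ≠ 0 := by
        rw [← hFv t0 ht0, Valuation.ne_zero_iff]
        exact hA0 _ (hTa t0 (hFx t0 ht0).1)
      have hinj : Set.InjOn (fun t : (Σ _ : K, Σ _ : K, K) => t.1) F := by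
        rintro ⟨l, a, b⟩ ht ⟨l', a', b'⟩ ht' heq
        have heq' : l = l' := heq
        subst heq'
        rw [mem_coe] at ht ht'
        obtain ⟨h1, h2, h3⟩ := hFx _ ht
        obtain ⟨h1', h2', h3'⟩ := hFx _ ht'
        have h4 := hFv _ ht
        have h4' := hFv _ ht'
        have h5 := (hTp _ h1).2.1
        simp only at h2 h3 h2' h3' h4 h4' h5
        rw [h4] at h3 h5
        rw [h4'] at h3'
        have h6 : ((p l (v x)).1 - l) * (b - b') = 0 := by
          have h7 : a = x - b := by rw [← h2]; ring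
          have h8 : a' = x - b' := by rw [← h2']; ring
          rw [h7] at h3
          rw [h8] at h3'
          linear_combination h3 - h3'
        have h9 : b = b' := by
          rcases mul_eq_zero.1 h6 with h | h
          · exact absurd (sub_eq_zero.1 h) h5
          · exact sub_eq_zero.1 h
        have h10 : a = a' := by
          rw [h9] at h2
          exact add_right_cancel (h2.trans h2'.symm)
        rw [h9, h10]
      rw [← card_image_of_injOn hinj]
      have hIS : F.image (fun t => t.1) ⊆ S (v x) := by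
        intro l hl
        rw [mem_image] at hl
        obtain ⟨t, ht, rfl⟩ := hl
        rw [← hFv t ht]
        exact hTS t (hFx t ht).1
      refine overlap v hq (S (v x)) (v x) he x y rfl _ hIS (fun l => (p l (v x)).1) ?_ ?_ k
        (lt_of_le_of_lt (card_le_card (hSΛ _)) hk)
      · intro l hl
        rw [mem_image] at hl
        obtain ⟨t, ht, rfl⟩ := hl
        obtain ⟨h1, h2, h3, _⟩ := hTp t (hFx t ht).1
        rw [hFv t ht] at h1 h2 h3
        exact ⟨h1, h2, h3⟩
      · intro l hl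
        rw [mem_image] at hl
        obtain ⟨t, ht, rfl⟩ := hl
        obtain ⟨h1, h2, h3⟩ := hFx t ht
        obtain ⟨_, _, _, _, _, _, h4⟩ := hTp t h1
        have hb := ((hTm t).1 h1).2.2
        rw [hFv t ht] at h3 h4 hb
        refine ⟨t.2.1, t.2.2, hFv t ht, h2, h3, ?_⟩
        rcases h4 with h4 | ⟨h4, h5⟩
        · exact Or.inl (h4 _ hb)
        · exact Or.inr ⟨h4 _ hb, h5⟩
  -- lower bound
  have hlow : (Λ.card - 1) * τ ^ 2 ≤ 8 * T.card := by
    rcases Λ.eq_empty_or_nonempty with h0 | hne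
    · rw [h0, card_empty]
      simp
    obtain ⟨l0, hl0, hmin⟩ := exists_min_image Λ m hne
    have h1 : T.card = ∑ l ∈ Λ, ∑ a ∈ (X l).filter fun a => m l ≤ v a ∧ 2 ≤ (S (v a)).card,
        (p l (v a)).2.card := by
      rw [hT, card_sigma]
      refine sum_congr rfl fun l _ => ?_
      rw [card_sigma]
    rw [h1, mul_sum]
    have h2 : ∀ l ∈ Λ.erase l0, τ ^ 2 ≤ 8 * ∑ a ∈ (X l).filter fun a => m l ≤ v a ∧
        2 ≤ (S (v a)).card, (p l (v a)).2.card := by
      intro l hl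
      rw [mem_erase] at hl
      have h3 : ((X l).filter fun a => m l ≤ v a ∧ 2 ≤ (S (v a)).card) =
          (X l).filter fun a => m l ≤ v a := by
        refine filter_congr fun a _ => ?_
        constructor
        · exact fun h => h.1
        · intro h
          refine ⟨h, ?_⟩
          have h4 : ({l, l0} : Finset K) ⊆ S (v a) := by
            intro z hz
            rw [mem_insert, mem_singleton] at hz
            rw [hS, mem_filter]
            rcases hz with rfl | rfl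
            · exact ⟨hl.2, h⟩
            · exact ⟨hl0, (hmin l hl.2).trans h⟩
          have h5 := card_le_card h4
          rw [card_pair hl.1] at h5
          exact h5
      have h4 : ∀ a ∈ (X l).filter fun a => m l ≤ v a ∧ 2 ≤ (S (v a)).card,
          τ ≤ 4 * (p l (v a)).2.card := by
        intro a ha
        rw [mem_filter] at ha
        have h5 : l ∈ S (v a) := by
          rw [hS, mem_filter]
          exact ⟨hl.2, ha.2.1⟩
        exact (hp l (v a) h5 ha.2.2).2.2.2.2.1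
      have h5 : ((X l).filter fun a => m l ≤ v a ∧ 2 ≤ (S (v a)).card).card * τ ≤
          4 * ∑ a ∈ (X l).filter fun a => m l ≤ v a ∧ 2 ≤ (S (v a)).card,
            (p l (v a)).2.card := by
        rw [mul_sum, ← smul_eq_mul, ← sum_const]
        exact sum_le_sum h4
      have h6 := (hm l hl.2).2
      rw [h3] at h5
      rw [h3]
      calc τ ^ 2 = τ * τ := by ring
        _ ≤ (2 * ((X l).filter fun a => m l ≤ v a).card) * τ := Nat.mul_le_mul_right τ h6
        _ = 2 * (((X l).filter fun a => m l ≤ v a).card * τ) := by ring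
        _ ≤ 2 * (4 * ∑ a ∈ (X l).filter fun a => m l ≤ v a, (p l (v a)).2.card) :=
            Nat.mul_le_mul_left 2 h5
        _ = _ := by ring
    calc (Λ.card - 1) * τ ^ 2 = ∑ _l ∈ Λ.erase l0, τ ^ 2 := by
          rw [sum_const, card_erase_of_mem hl0, smul_eq_mul]
      _ ≤ ∑ l ∈ Λ.erase l0, 8 * ∑ a ∈ (X l).filter fun a => m l ≤ v a ∧ 2 ≤ (S (v a)).card,
            (p l (v a)).2.card := sum_le_sum h2
      _ ≤ _ := sum_le_sum_of_subset (erase_subset _ _)
  rw [card_product] at hup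
  exact hlow.trans (Nat.mul_le_mul_left 8 hup)

end Pool.Agent.N9.SP
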