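import Pool.Agent.N9.SP.Core

/-!
# Sums and products in valued fields with finite residue field: the bound for the energy
-/

set_option autoImplicit false

open Finset
open scoped Pointwise

noncomputable section

namespace Pool.Agent.N9.SP

variable {K Γ : Type*} [Field K] [LinearOrderedCommGroupWithZero Γ] (v : Valuation K Γ)

open Classical in
/-- the elements `a` of `A` with `l a` in `B` -/
def Rl (A B : Finset K) (l : K) : Finset K := A.filter fun a => l * a ∈ B

theorem sq_le_dyadic (n L : ℕ) (hn : n < 2 ^ L) :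
    n ^ 2 ≤ ∑ j ∈ (range L).filter fun j => 2 ^ j ≤ n, 4 * 4 ^ j := by
  rcases Nat.eq_zero_or_pos n with h | h
  · rw [h]
    simp
  have h1 : Nat.log 2 n ∈ (range L).filter fun j => 2 ^ j ≤ n := by
    rw [mem_filter, mem_range]
    exact ⟨Nat.log_lt_of_lt_pow h.ne' hn, Nat.pow_log_le_self 2 h.ne'⟩
  refine le_trans ?_ (single_le_sum (f := fun j => 4 * 4 ^ j) (fun i _ => Nat.zero_le _) h1)
  have h2 : n < 2 ^ (Nat.log 2 n + 1) := Nat.lt_pow_succ_log_self (by norm_num) n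
  calc n ^ 2 ≤ (2 ^ (Nat.log 2 n + 1)) ^ 2 := Nat.pow_le_pow_left h2.le 2
    _ = 4 * 4 ^ Nat.log 2 n := by
      rw [← pow_mul, mul_comm, pow_mul]
      norm_num [pow_succ, mul_comm]

theorem Rl_subset (A B : Finset K) (l : K) : Rl A B l ⊆ A := by
  classical
  exact filter_subset _ _

theorem card_Rl_le (A B : Finset K) (l : K) : (Rl A B l).card ≤ A.card :=
  card_le_card (Rl_subset A B l)

theorem card_Rl_le' (A B : Finset K) {l : K} (hl : l ≠ 0) : (Rl A B l).card ≤ B.card := by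
  classical
  refine card_le_card_of_injOn (fun a => l * a) ?_ ?_
  · intro a ha
    rw [mem_coe, Rl, mem_filter] at ha
    exact ha.2
  · intro a _ b _ h
    exact mul_left_cancel₀ hl h

theorem card_le_add [DecidableEq K] (A : Finset K) : A.card ≤ (A + A).card := by
  rcases A.eq_empty_or_nonempty with h | h
  · rw [h, card_empty]
    exact Nat.zero_le _
  · exact card_le_card_add_right h

open Classical in
theorem rich {q : ℕ} (hq : EqDist v q) (A B Λ : Finset K)
    (hA0 : ∀ a ∈ A, a ≠ 0) (hN : ∀ a ∈ A, ∀ b ∈ A, v (a + b) = max (v a) (v b))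
    (hΛ : ∀ l ∈ Λ, l ≠ 0) (L : ℕ) (hL : A.card * B.card < 2 ^ L) (j : ℕ) :
    (Λ.filter fun l => 2 ^ j ≤ (Rl A B l).card).card * 4 ^ j ≤
      16 * ((1 + q * L) * ((A + A).card * (B + B).card)) := by
  obtain ⟨Λ', hΛ'⟩ : ∃ Λ' : Finset K, Λ' = Λ.filter fun l => 2 ^ j ≤ (Rl A B l).card := ⟨_, rfl⟩
  rw [← hΛ']
  have hmem : ∀ l ∈ Λ', l ∈ Λ ∧ 2 ^ j ≤ (Rl A B l).card := by
    intro l hl
    rw [hΛ', mem_filter] at hl
    exact hl
  have hX : ∀ l, ∃ X : Finset K, l ∈ Λ' → X ⊆ Rl A B l ∧ X.card = 2 ^ j := by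
    intro l
    by_cases hl : l ∈ Λ'
    · obtain ⟨X, h1, h2⟩ := exists_subset_card_eq (hmem l hl).2
      exact ⟨X, fun _ => ⟨h1, h2⟩⟩
    · exact ⟨∅, fun h => absurd h hl⟩
  choose X hX using hX
  have hcardΛ : Λ'.card < 2 ^ L := by
    refine lt_of_le_of_lt ?_ hL
    have h1 : Λ' ⊆ (A ×ˢ B).image fun p => p.2 / p.1 := by
      intro l hl
      have h2 : 0 < (Rl A B l).card := lt_of_lt_of_le (by positivity) (hmem l hl).2
      obtain ⟨a, ha⟩ := card_pos.1 h2
      rw [Rl, mem_filter] at ha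
      rw [mem_image]
      refine ⟨(a, l * a), ?_, ?_⟩
      · rw [mem_product]
        exact ha
      · have := hA0 a ha.1
        field_simp
    calc Λ'.card ≤ _ := card_le_card h1
      _ ≤ (A ×ˢ B).card := card_image_le
      _ = _ := card_product _ _
  have hcore := core v hq A B Λ' X (2 ^ j) hA0 hN
    (fun l hl => ((hX l hl).1).trans (filter_subset _ _))
    (fun l hl a ha => (mem_filter.1 ((hX l hl).1 ha)).2) (fun l hl => (hX l hl).2)
    (by positivity) L hcardΛ
  have h4 : ((2 : ℕ) ^ j) ^ 2 = 4 ^ j := by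
    rw [← pow_mul, mul_comm, pow_mul]
    norm_num
  rw [h4] at hcore
  obtain ⟨N, hN⟩ : ∃ N, N = (A + A).card * (B + B).card := ⟨_, rfl⟩
  rw [← hN] at hcore ⊢
  rcases lt_trichotomy Λ'.card 1 with h | h | h
  · have h5 : Λ'.card = 0 := by omega
    rw [h5, zero_mul]
    exact Nat.zero_le _
  · obtain ⟨l, hl⟩ := card_pos.1 (by omega : 0 < Λ'.card)
    have h5 := (hmem l hl).2.trans (card_Rl_le A B l)
    have h6 := (hmem l hl).2.trans (card_Rl_le' A B (hΛ l (hmem l hl).1))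
    have h7 : 4 ^ j ≤ N := by
      rw [← h4, sq, hN]
      exact Nat.mul_le_mul (h5.trans (card_le_add A)) (h6.trans (card_le_add B))
    rw [h, one_mul]
    calc 4 ^ j ≤ N := h7
      _ = 1 * (1 * N) := by ring
      _ ≤ 16 * ((1 + q * L) * N) := by
        refine Nat.mul_le_mul (by norm_num) (Nat.mul_le_mul_right N ?_)
        omega
  · have h5 : Λ'.card ≤ 2 * (Λ'.card - 1) := by omega
    calc Λ'.card * 4 ^ j ≤ 2 * (Λ'.card - 1) * 4 ^ j := Nat.mul_le_mul_right _ h5
      _ = 2 * ((Λ'.card - 1) * 4 ^ j) := by ring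
      _ ≤ 2 * (8 * ((1 + q * L) * N)) := Nat.mul_le_mul_left 2 hcore
      _ = _ := by ring

open Classical in
/-- the second moment of the numbers of representations of the slopes -/
theorem moment {q : ℕ} (hq : EqDist v q) (A B Λ : Finset K)
    (hA0 : ∀ a ∈ A, a ≠ 0) (hN : ∀ a ∈ A, ∀ b ∈ A, v (a + b) = max (v a) (v b))
    (hΛ : ∀ l ∈ Λ, l ≠ 0) (L : ℕ) (hL : A.card * B.card < 2 ^ L) :
    ∑ l ∈ Λ, (Rl A B l).card ^ 2 ≤
      64 * (L * ((1 + q * L) * ((A + A).card * (B + B).card))) := by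
  have h1 : ∀ l ∈ Λ, (Rl A B l).card ^ 2 ≤
      ∑ j ∈ range L, if 2 ^ j ≤ (Rl A B l).card then 4 * 4 ^ j else 0 := by
    intro l hl
    have h2 : (Rl A B l).card < 2 ^ L := by
      refine lt_of_le_of_lt ?_ hL
      rcases Nat.eq_zero_or_pos B.card with h | h
      · have := card_Rl_le' A B (hΛ l hl)
        rw [h] at this ⊢
        omega
      · exact (card_Rl_le A B l).trans (Nat.le_mul_of_pos_right _ h)
    refine (sq_le_dyadic _ L h2).trans (le_of_eq ?_)
    rw [sum_filter]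
  calc ∑ l ∈ Λ, (Rl A B l).card ^ 2 ≤
      ∑ l ∈ Λ, ∑ j ∈ range L, (if 2 ^ j ≤ (Rl A B l).card then 4 * 4 ^ j else 0) :=
        sum_le_sum h1
    _ = ∑ j ∈ range L, ∑ l ∈ Λ, (if 2 ^ j ≤ (Rl A B l).card then 4 * 4 ^ j else 0) := sum_comm
    _ = ∑ j ∈ range L, 4 * ((Λ.filter fun l => 2 ^ j ≤ (Rl A B l).card).card * 4 ^ j) := by
        refine sum_congr rfl fun j _ => ?_
        rw [← sum_filter, sum_const, smul_eq_mul]
        ring
    _ ≤ ∑ _j ∈ range L, 4 * (16 * ((1 + q * L) * ((A + A).card * (B + B).card))) :=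
        sum_le_sum fun j _ => Nat.mul_le_mul_left 4 (rich v hq A B Λ hA0 hN hΛ L hL j)
    _ = _ := by
        rw [sum_const, card_range, smul_eq_mul]
        ring

/-- two elements with the same leading term -/
def lead : Setoid K where
  r x y := x = y ∨ v (x - y) < v x
  iseqv := by
    have hval : ∀ x y : K, v (x - y) < v x → v y = v x := by
      intro x y h
      have h1 : y = x - (x - y) := by ring
      rw [h1]
      exact Valuation.map_sub_eq_of_lt_left v h
    refine ⟨fun x => Or.inl rfl, ?_, ?_⟩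
    · rintro x y (h | h)
      · exact Or.inl h.symm
      · right
        rw [v_symm, hval x y h]
        exact h
    · rintro x y z (h | h) (h' | h')
      · exact Or.inl (h.trans h')
      · rw [h]
        exact Or.inr h'
      · rw [← h']
        exact Or.inr h
      · right
        rw [hval x y h] at h'
        exact lt_of_le_of_lt (v_tri v x y z) (max_lt h h')

open Classical in
/-- a finite set without zero is the union of two sets without cancellation -/
theorem split (h2 : v 2 = 1) (A : Finset K) (hA0 : ∀ a ∈ A, a ≠ 0) :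
    ∃ A₁ A₂ : Finset K, A₁ ⊆ A ∧ A₂ ⊆ A ∧ A ⊆ A₁ ∪ A₂ ∧
      (∀ a ∈ A₁, ∀ b ∈ A₁, v (a + b) = max (v a) (v b)) ∧
      (∀ a ∈ A₂, ∀ b ∈ A₂, v (a + b) = max (v a) (v b)) := by
  obtain ⟨Q, hQ⟩ : ∃ Q : K → Quotient (lead v), ∀ x, Q x = Quotient.mk (lead v) x :=
    ⟨_, fun _ => rfl⟩
  have hQeq : ∀ x y, v (x - y) < v x → Q x = Q y := by
    intro x y h
    rw [hQ, hQ]
    exact Quotient.sound (Or.inr h)
  have hQne : ∀ x, x ≠ 0 → Q x ≠ Q (-x) := by
    intro x hx h
    rw [hQ, hQ] at h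
    have h3 : v (x - -x) = v x := by
      have : x - -x = 2 * x := by ring
      rw [this, map_mul, h2, one_mul]
    rcases Quotient.exact h with h1 | h1
    · rw [← h1, sub_self, map_zero] at h3
      exact hx ((Valuation.zero_iff v).1 h3.symm)
    · rw [h3] at h1
      exact lt_irrefl _ h1
  have key : ∀ (W : Quotient (lead v) → Quotient (lead v) → Prop),
      (∀ x y, W x y → ¬ W y x) → ∀ a b : K, W (Q a) (Q (-a)) → W (Q b) (Q (-b)) →
      v (a + b) = max (v a) (v b) := by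
    intro W hW a b ha hb
    rcases eq_or_ne (v a) (v b) with hab | hab
    · refine le_antisymm (Valuation.map_add v a b) ?_
      by_contra hlt
      push Not at hlt
      rw [← hab, max_self] at hlt
      have h3 : Q a = Q (-b) := by
        apply hQeq
        rw [sub_neg_eq_add]
        exact hlt
      have h4 : Q (-a) = Q b := by
        apply hQeq
        rw [Valuation.map_neg]
        have : -a - b = -(a + b) := by ring
        rw [this, Valuation.map_neg]
        exact hlt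
      rw [h3, h4] at ha
      exact hW _ _ ha hb
    · exact Valuation.map_add_of_distinct_val v hab
  refine ⟨A.filter fun a => WellOrderingRel (Q a) (Q (-a)),
    A.filter fun a => WellOrderingRel (Q (-a)) (Q a), filter_subset _ _, filter_subset _ _, ?_,
    ?_, ?_⟩
  · intro a ha
    rw [mem_union, mem_filter, mem_filter]
    rcases trichotomous_of WellOrderingRel (Q a) (Q (-a)) with h | h | h
    · exact Or.inl ⟨ha, h⟩
    · exact absurd h (hQne a (hA0 a ha))
    · exact Or.inr ⟨ha, h⟩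
  · intro a ha b hb
    rw [mem_filter] at ha hb
    exact key WellOrderingRel (fun x y h h' => asymm_of WellOrderingRel h h') a b ha.2 hb.2
  · intro a ha b hb
    rw [mem_filter] at ha hb
    exact key (fun x y => WellOrderingRel y x) (fun x y h h' => asymm_of WellOrderingRel h h')
      a b ha.2 hb.2

open Classical in
theorem moment_all {q : ℕ} (hq : EqDist v q) (h2 : v 2 = 1) (A B Λ : Finset K)
    (hA0 : ∀ a ∈ A, a ≠ 0) (hΛ : ∀ l ∈ Λ, l ≠ 0) (L : ℕ) (hL : A.card * B.card < 2 ^ L) :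
    ∑ l ∈ Λ, (Rl A B l).card ^ 2 ≤
      256 * (L * ((1 + q * L) * ((A + A).card * (B + B).card))) := by
  obtain ⟨A₁, A₂, h3, h4, h5, h6, h7⟩ := split v h2 A hA0
  have hmono : ∀ A' : Finset K, A' ⊆ A → (∀ a ∈ A', ∀ b ∈ A', v (a + b) = max (v a) (v b)) →
      ∑ l ∈ Λ, (Rl A' B l).card ^ 2 ≤
        64 * (L * ((1 + q * L) * ((A + A).card * (B + B).card))) := by
    intro A' hA' hN
    refine (moment v hq A' B Λ (fun a ha => hA0 a (hA' ha)) hN hΛ L
      (lt_of_le_of_lt (Nat.mul_le_mul_right _ (card_le_card hA')) hL)).trans ?_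
    gcongr
  have h8 : ∀ l ∈ Λ, (Rl A B l).card ^ 2 ≤ 2 * (Rl A₁ B l).card ^ 2 + 2 * (Rl A₂ B l).card ^ 2 := by
    intro l _
    have h9 : (Rl A B l).card ≤ (Rl A₁ B l).card + (Rl A₂ B l).card := by
      refine le_trans (card_le_card ?_) (card_union_le _ _)
      intro a ha
      rw [Rl, mem_filter] at ha
      rw [mem_union, Rl, Rl, mem_filter, mem_filter]
      rcases mem_union.1 (h5 ha.1) with h | h
      · exact Or.inl ⟨h, ha.2⟩
      · exact Or.inr ⟨h, ha.2⟩
    calc (Rl A B l).card ^ 2 ≤ ((Rl A₁ B l).card + (Rl A₂ B l).card) ^ 2 :=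
          Nat.pow_le_pow_left h9 2
      _ ≤ _ := by
          zify
          nlinarith [sq_nonneg (((Rl A₁ B l).card : ℤ) - (Rl A₂ B l).card)]
  have h9 := hmono A₁ h3 h6
  have h10 := hmono A₂ h4 h7
  calc ∑ l ∈ Λ, (Rl A B l).card ^ 2 ≤
      ∑ l ∈ Λ, (2 * (Rl A₁ B l).card ^ 2 + 2 * (Rl A₂ B l).card ^ 2) := sum_le_sum h8
    _ = 2 * ∑ l ∈ Λ, (Rl A₁ B l).card ^ 2 + 2 * ∑ l ∈ Λ, (Rl A₂ B l).card ^ 2 := by
        rw [sum_add_distrib, mul_sum, mul_sum]
    _ ≤ _ := by linarith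

open Classical in
/-- the energy is at most the second moment -/
theorem energy_le (A B : Finset K) (hA0 : ∀ a ∈ A, a ≠ 0) :
    mulEnergy A B ≤ ∑ l ∈ (A ×ˢ B).image fun p => p.2 / p.1, (Rl A B l).card ^ 2 := by
  obtain ⟨Λ, hΛ⟩ : ∃ Λ : Finset K, Λ = (A ×ˢ B).image fun p => p.2 / p.1 := ⟨_, rfl⟩
  rw [← hΛ]
  obtain ⟨U, hU⟩ : ∃ U : Finset (Σ _ : K, K × K), U = Λ.sigma fun l => Rl A B l ×ˢ Rl A B l :=
    ⟨_, rfl⟩
  have h1 : ∑ l ∈ Λ, (Rl A B l).card ^ 2 = U.card := by
    rw [hU, card_sigma]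
    refine sum_congr rfl fun l _ => ?_
    rw [card_product, sq]
  rw [h1]
  unfold mulEnergy
  refine card_le_card_of_injOn (fun x => ⟨x.2.2 / x.1.1, (x.1.1, x.1.2)⟩) ?_ ?_
  · rintro ⟨⟨a, a'⟩, ⟨b, b'⟩⟩ hx
    rw [mem_coe, mem_filter, mem_product, mem_product, mem_product] at hx
    obtain ⟨⟨⟨ha, ha'⟩, hb, hb'⟩, heq⟩ := hx
    simp only at ha ha' hb hb' heq
    have hane := hA0 a ha
    rw [mem_coe, hU, mem_sigma, mem_product]
    simp only
    refine ⟨?_, ?_, ?_⟩
    · rw [hΛ, mem_image]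
      exact ⟨(a, b'), mem_product.2 ⟨ha, hb'⟩, rfl⟩
    · rw [Rl, mem_filter]
      refine ⟨ha, ?_⟩
      rw [div_mul_cancel₀ _ hane]
      exact hb'
    · rw [Rl, mem_filter]
      refine ⟨ha', ?_⟩
      have : b' / a * a' = b := by
        field_simp
        rw [mul_comm b' a', ← heq]
      rw [this]
      exact hb
  · rintro ⟨⟨a, a'⟩, ⟨b, b'⟩⟩ hx ⟨⟨c, c'⟩, ⟨d, d'⟩⟩ hy h
    rw [mem_coe, mem_filter, mem_product, mem_product, mem_product] at hx hy
    obtain ⟨⟨⟨ha, ha'⟩, hb, hb'⟩, heq⟩ := hx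
    obtain ⟨⟨⟨hc, hc'⟩, hd, hd'⟩, heq'⟩ := hy
    simp only at ha ha' hb hb' heq hc hc' hd hd' heq'
    simp only [Sigma.mk.injEq, heq_eq_eq, Prod.mk.injEq] at h
    obtain ⟨h3, h4, h5⟩ := h
    subst h4
    subst h5
    have hane := hA0 a ha
    have h6 : b' = d' := by
      field_simp at h3
      exact h3
    subst h6
    have h7 : b = d := mul_left_cancel₀ hane (heq.trans heq'.symm)
    rw [h7]

open Classical in
/-- **the bound for the energy** -/
theorem energy_bound {q : ℕ} (hq : EqDist v q) (h2 : v 2 = 1) (A B : Finset K)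
    (hA0 : ∀ a ∈ A, a ≠ 0) (hB0 : ∀ b ∈ B, b ≠ 0) (L : ℕ) (hL : A.card * B.card < 2 ^ L) :
    mulEnergy A B ≤ 256 * (L * ((1 + q * L) * ((A + A).card * (B + B).card))) := by
  refine (energy_le A B hA0).trans (moment_all v hq h2 A B _ hA0 ?_ L hL)
  intro l hl
  rw [mem_image] at hl
  obtain ⟨⟨a, b⟩, hab, rfl⟩ := hl
  rw [mem_product] at hab
  exact div_ne_zero (hB0 b hab.2) (hA0 a hab.1)

end Pool.Agent.N9.SP
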