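import Pool.Agent.N9.SP.Grid

/-!
# Sums and products in valued fields with finite residue field of any characteristic
-/

set_option autoImplicit false

open Finset
open scoped Pointwise

noncomputable section

namespace Pool.Agent.N9.SP

variable {K Γ : Type*} [Field K] [LinearOrderedCommGroupWithZero Γ] (v : Valuation K Γ)

theorem one_le_of_eqDist {q : ℕ} (hq : EqDist v q) : 1 ≤ q := by
  have h4 := hq {0} 1 (by
    intro x hx y hy hxy
    rw [mem_singleton] at hx hy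
    exact absurd (hx.trans hy.symm) hxy)
  rwa [card_singleton] at h4

open Classical in
/-- rich lines of a Cartesian square -/
theorem rich_lines {q : ℕ} (hq : EqDist v q) (S : Finset K) (L : Finset (K × K))
    (hL : ∀ l ∈ L, l.1 ≠ 0) (k : ℕ) (hk : 4 ≤ k)
    (hrich : ∀ l ∈ L, k ≤ (S.filter fun x => l.1 * x + l.2 ∈ S).card) :
    L.card * k ^ 3 ≤ 512 * q ^ 2 * S.card ^ 4 := by
  rcases L.eq_empty_or_nonempty with h0 | ⟨l0, hl0⟩
  · rw [h0, card_empty, zero_mul]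
    exact Nat.zero_le _
  have hq1 := one_le_of_eqDist v hq
  have hkS : k ≤ S.card := (hrich l0 hl0).trans (card_le_card (filter_subset _ _))
  obtain ⟨n, hn⟩ : ∃ n, n = S.card := ⟨_, rfl⟩
  rw [← hn] at hkS ⊢
  obtain ⟨t, ht⟩ : ∃ t, t = 8 * q * n / k + 1 := ⟨_, rfl⟩
  have hk0 : 0 < k := by omega
  have hqn : 0 < q * n := Nat.mul_pos hq1 (by omega)
  have ht1 : 8 * (q * n) ≤ t * k := by
    have h1 := Nat.lt_div_mul_add (a := 8 * q * n) hk0
    rw [ht]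
    have h2 : (8 * q * n / k + 1) * k = 8 * q * n / k * k + k := by ring
    rw [h2]
    have h3 : 8 * q * n = 8 * (q * n) := by ring
    omega
  have ht2 : t * k ≤ 16 * (q * n) := by
    have h1 := Nat.div_mul_le_self (8 * q * n) k
    rw [ht]
    have h2 : (8 * q * n / k + 1) * k = 8 * q * n / k * k + k := by ring
    rw [h2]
    have h3 : 8 * q * n = 8 * (q * n) := by ring
    have h4 : n ≤ q * n := Nat.le_mul_of_pos_left n hq1
    omega
  have ht0 : 1 ≤ t := by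
    rw [ht]
    exact Nat.le_add_left 1 _
  obtain ⟨M, N, hM, hN, hI⟩ := incidence v hq S S L hL t t ht0 ht0
  rw [← hn] at hM hN hI
  have key : ∀ M : ℕ, t * M ≤ q * n → 8 * M ≤ k := by
    intro M hM
    have h1 : 8 * (q * n) * M ≤ q * n * k := by
      calc 8 * (q * n) * M ≤ t * k * M := Nat.mul_le_mul_right M ht1
        _ = t * M * k := by ring
        _ ≤ q * n * k := Nat.mul_le_mul_right k hM
    have h2 : (q * n) * (8 * M) ≤ (q * n) * k := by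
      calc (q * n) * (8 * M) = 8 * (q * n) * M := by ring
        _ ≤ _ := h1
    exact Nat.le_of_mul_le_mul_left h2 hqn
  have hM' := key M hM
  have hN' := key N hN
  have h1 : L.card * k ≤ ∑ l ∈ L, (S.filter fun x => l.1 * x + l.2 ∈ S).card := by
    rw [← smul_eq_mul]
    exact card_nsmul_le_sum L _ _ hrich
  have h2 : 2 * (M + N + 1) ≤ k := by omega
  have h3 : L.card * (2 * (M + N + 1)) ≤ L.card * k := Nat.mul_le_mul_left _ h2
  have h4 : L.card * k ≤ 2 * ((t * n) * (t * n)) := by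
    have h5 := h1.trans hI
    nlinarith
  calc L.card * k ^ 3 = (L.card * k) * k ^ 2 := by ring
    _ ≤ (2 * ((t * n) * (t * n))) * k ^ 2 := Nat.mul_le_mul_right _ h4
    _ = 2 * (t * k) ^ 2 * n ^ 2 := by ring
    _ ≤ 2 * (16 * (q * n)) ^ 2 * n ^ 2 := by gcongr
    _ = _ := by ring

open Classical in
/-- many lines -/
theorem many_lines {q : ℕ} (hq : EqDist v q) (A Λ : Finset K) (hΛ : ∀ l ∈ Λ, l ≠ 0)
    (hA : 1 ≤ A.card) (t : ℕ) (ht : 1 ≤ t) (ht2 : 2 * t ^ 2 ≤ Λ.card) (htA : t ≤ A.card) :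
    t * (Λ.card * A.card) ≤
      6 * (q * ((Λ ×ˢ (A ×ˢ A)).image fun p => (p.1, p.2.2 - p.1 * p.2.1)).card) := by
  have hq1 := one_le_of_eqDist v hq
  obtain ⟨L, hL⟩ : ∃ L : Finset (K × K), L =
      (Λ ×ˢ (A ×ˢ A)).image fun p => (p.1, p.2.2 - p.1 * p.2.1) := ⟨_, rfl⟩
  rw [← hL]
  obtain ⟨n, hn⟩ : ∃ n, n = A.card := ⟨_, rfl⟩
  have hL0 : ∀ l ∈ L, l.1 ≠ 0 := by
    intro l hl
    rw [hL, mem_image] at hl
    obtain ⟨p, hp, rfl⟩ := hl
    exact hΛ _ (mem_product.1 hp).1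
  obtain ⟨M, N, hM, hN, hI⟩ := incidence v hq A A L hL0 t t ht ht
  have hlow : Λ.card * (A.card * A.card) ≤ ∑ l ∈ L, (A.filter fun x => l.1 * x + l.2 ∈ A).card := by
    rw [← card_product, ← card_product, ← card_sigma]
    refine card_le_card_of_injOn (fun p => ⟨(p.1, p.2.2 - p.1 * p.2.1), p.2.1⟩) ?_ ?_
    · rintro ⟨l, u, w⟩ hp
      rw [mem_coe, mem_product, mem_product] at hp
      rw [mem_coe, mem_sigma, mem_filter]
      refine ⟨?_, hp.2.1, ?_⟩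
      · rw [hL, mem_image]
        exact ⟨(l, u, w), by rw [mem_product, mem_product]; exact hp, rfl⟩
      · simp only
        have h1 : l * u + (w - l * u) = w := by ring
        rw [h1]
        exact hp.2.2
    · rintro ⟨l, u, w⟩ _ ⟨l', u', w'⟩ _ h
      simp only [Sigma.mk.injEq, Prod.mk.injEq, heq_eq_eq] at h
      obtain ⟨⟨rfl, h1⟩, rfl⟩ := h
      have h2 : w = w' := sub_left_injective h1
      rw [h2]
  rw [← hn] at hM hN hI hlow htA hA ⊢
  have h1 := hlow.trans hI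
  have h2 : 2 * ((t * n) * (t * n)) ≤ Λ.card * (n * n) := by
    calc 2 * ((t * n) * (t * n)) = 2 * t ^ 2 * (n * n) := by ring
      _ ≤ _ := Nat.mul_le_mul_right _ ht2
  have h3 : Λ.card * (n * n) ≤ 2 * (L.card * (M + N + 1)) := by omega
  have h4 : n ≤ q * n := Nat.le_mul_of_pos_left n hq1
  have h5 : n * (t * (Λ.card * n)) ≤ n * (6 * (q * L.card)) := by
    calc n * (t * (Λ.card * n)) = t * (Λ.card * (n * n)) := by ring
      _ ≤ t * (2 * (L.card * (M + N + 1))) := Nat.mul_le_mul_left t h3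
      _ = 2 * L.card * (t * M + t * N + t) := by ring
      _ ≤ 2 * L.card * (q * n + q * n + q * n) := by
          refine Nat.mul_le_mul_left _ ?_
          omega
      _ = _ := by ring
  exact Nat.le_of_mul_le_mul_left h5 (by omega)

open Classical in
/-- one dyadic level -/
theorem level {q : ℕ} (hq : EqDist v q) (A Λ S : Finset K) (hA0 : ∀ a ∈ A, a ≠ 0)
    (hA : 1 ≤ A.card) (hΛ : ∀ l ∈ Λ, l ≠ 0) (ε : K) (hε : ε ≠ 0)
    (hS : ∀ u ∈ A, ∀ a ∈ A, u + ε * a ∈ S) (j : ℕ) :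
    ((Λ.filter fun l => 2 ^ j ≤ (Rl A A l).card).card * 4 ^ j) ^ 3 * A.card ^ 2 ≤
      2 ^ 27 * q ^ 6 * S.card ^ 8 := by
  obtain ⟨Λ', hΛ'⟩ : ∃ Λ' : Finset K, Λ' = Λ.filter fun l => 2 ^ j ≤ (Rl A A l).card := ⟨_, rfl⟩
  rw [← hΛ']
  have hq1 := one_le_of_eqDist v hq
  have hmem : ∀ l ∈ Λ', l ∈ Λ ∧ 2 ^ j ≤ (Rl A A l).card := by
    intro l hl
    rw [hΛ', mem_filter] at hl
    exact hl
  have hRA : ∀ l ∈ Λ', 2 ^ j ≤ A.card := fun l hl => (hmem l hl).2.trans (card_Rl_le A A l)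
  have hcardΛ : Λ'.card ≤ A.card * A.card := by
    have h1 : Λ' ⊆ (A ×ˢ A).image fun p => p.2 / p.1 := by
      intro l hl
      have h2 : 0 < (Rl A A l).card := lt_of_lt_of_le (by positivity) (hmem l hl).2
      obtain ⟨a, ha⟩ := card_pos.1 h2
      rw [Rl, mem_filter] at ha
      rw [mem_image]
      refine ⟨(a, l * a), ?_, ?_⟩
      · rw [mem_product]
        exact ha
      · have := hA0 a ha.1
        field_simp
    calc Λ'.card ≤ _ := card_le_card h1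
      _ ≤ (A ×ˢ A).card := card_image_le
      _ = _ := card_product _ _
  have hSA : A.card ≤ S.card := by
    obtain ⟨u, hu⟩ := card_pos.1 (show 0 < A.card by omega)
    refine card_le_card_of_injOn (fun a => u + ε * a) ?_ ?_
    · intro a ha
      exact hS u hu a ha
    · intro a _ b _ h
      exact mul_left_cancel₀ hε (add_left_cancel h)
  obtain ⟨n, hn⟩ : ∃ n, n = A.card := ⟨_, rfl⟩
  obtain ⟨s, hs⟩ : ∃ s, s = S.card := ⟨_, rfl⟩
  have hbase : ∀ c : ℕ, c ≤ 2 ^ 27 → c * n ^ 8 ≤ 2 ^ 27 * q ^ 6 * s ^ 8 := by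
    intro c hc
    have h1 : n ^ 8 ≤ s ^ 8 := Nat.pow_le_pow_left (by omega) 8
    have h2 : 1 ≤ q ^ 6 := Nat.one_le_pow _ _ hq1
    calc c * n ^ 8 ≤ 2 ^ 27 * s ^ 8 := Nat.mul_le_mul hc h1
      _ = 2 ^ 27 * 1 * s ^ 8 := by ring
      _ ≤ 2 ^ 27 * q ^ 6 * s ^ 8 := by gcongr
  rw [← hn] at hRA hcardΛ hSA hA ⊢
  rw [← hs] at hSA ⊢
  rcases Λ'.eq_empty_or_nonempty with h0 | ⟨l0, hl0⟩
  · rw [h0, card_empty]
    simp
  have hτn := hRA l0 hl0
  have h4j : (4 : ℕ) ^ j = (2 ^ j) ^ 2 := by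
    rw [← pow_mul, mul_comm, pow_mul]
    norm_num
  obtain ⟨τ, hτ⟩ : ∃ τ, τ = 2 ^ j := ⟨_, rfl⟩
  rw [h4j]
  rw [← hτ] at hτn ⊢
  rcases Nat.lt_or_ge τ 4 with hτ4 | hτ4
  · -- small level
    have h1 : Λ'.card * τ ^ 2 ≤ n ^ 2 * 9 := by
      refine Nat.mul_le_mul ?_ ?_
      · rw [sq]
        exact hcardΛ
      · calc τ ^ 2 ≤ 3 ^ 2 := Nat.pow_le_pow_left (by omega) 2
          _ = 9 := by norm_num
    calc (Λ'.card * τ ^ 2) ^ 3 * n ^ 2 ≤ (n ^ 2 * 9) ^ 3 * n ^ 2 := by gcongr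
      _ = 729 * n ^ 8 := by ring
      _ ≤ _ := hbase 729 (by norm_num)
  rcases Nat.lt_or_ge Λ'.card 2 with hΛ2 | hΛ2
  · have h1 : Λ'.card * τ ^ 2 ≤ 1 * n ^ 2 :=
      Nat.mul_le_mul (by omega) (Nat.pow_le_pow_left hτn 2)
    calc (Λ'.card * τ ^ 2) ^ 3 * n ^ 2 ≤ (1 * n ^ 2) ^ 3 * n ^ 2 := by gcongr
      _ = 1 * n ^ 8 := by ring
      _ ≤ _ := hbase 1 (by norm_num)
  obtain ⟨t, ht⟩ : ∃ t, t = Nat.sqrt (Λ'.card / 2) := ⟨_, rfl⟩
  have ht1 : t * t ≤ Λ'.card / 2 := by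
    rw [ht]
    exact Nat.sqrt_le _
  have ht2 : Λ'.card / 2 < (t + 1) * (t + 1) := by
    rw [ht]
    exact Nat.lt_succ_sqrt _
  have ht0 : 1 ≤ t := by
    rw [ht]
    exact Nat.sqrt_pos.2 (by omega)
  have ht3 : 2 * t ^ 2 ≤ Λ'.card := by
    rw [sq]
    omega
  have ht4 : Λ'.card ≤ 8 * t ^ 2 := by
    have h1 : (t + 1) * (t + 1) = t * t + 2 * t + 1 := by ring
    have h2 : t ≤ t * t := Nat.le_mul_of_pos_left t ht0
    rw [sq]
    omega
  have ht5 : t ≤ n := by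
    by_contra hcon
    push Not at hcon
    have h1 : n * n < t * t := Nat.mul_self_lt_mul_self hcon
    omega
  have h1 := many_lines v hq A Λ' (fun l hl => hΛ l (hmem l hl).1) (by omega) t ht0 ht3 (by omega)
  rw [← hn] at h1
  obtain ⟨L, hL⟩ : ∃ L : Finset (K × K), L =
      (Λ' ×ˢ (A ×ˢ A)).image fun p => (p.1, p.2.2 - p.1 * p.2.1) := ⟨_, rfl⟩
  rw [← hL] at h1
  have h2 : L.card * τ ^ 3 ≤ 512 * q ^ 2 * S.card ^ 4 := by
    refine rich_lines v hq S L ?_ τ hτ4 ?_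
    · intro l hl
      rw [hL, mem_image] at hl
      obtain ⟨p, hp, rfl⟩ := hl
      exact hΛ _ (hmem _ (mem_product.1 hp).1).1
    · intro l hl
      rw [hL, mem_image] at hl
      obtain ⟨⟨m, u, w⟩, hp, rfl⟩ := hl
      rw [mem_product, mem_product] at hp
      obtain ⟨hm, hu, hw⟩ := hp
      simp only at hm hu hw
      rw [hτ]
      refine (hmem m hm).2.trans (card_le_card_of_injOn (fun a => u + ε * a) ?_ ?_)
      · intro a ha
        rw [mem_coe, Rl, mem_filter] at ha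
        rw [mem_coe, mem_filter]
        refine ⟨hS u hu a ha.1, ?_⟩
        have h3 : m * (u + ε * a) + (w - m * u) = w + ε * (m * a) := by ring
        simp only
        rw [h3]
        exact hS w hw _ ha.2
      · intro a _ b _ h
        exact mul_left_cancel₀ hε (add_left_cancel h)
  rw [← hs] at h2
  have h3 : t * (Λ'.card * n) * τ ^ 3 ≤ 3072 * q ^ 3 * s ^ 4 := by
    calc t * (Λ'.card * n) * τ ^ 3 ≤ 6 * (q * L.card) * τ ^ 3 := Nat.mul_le_mul_right _ h1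
      _ = 6 * q * (L.card * τ ^ 3) := by ring
      _ ≤ 6 * q * (512 * q ^ 2 * s ^ 4) := Nat.mul_le_mul_left _ h2
      _ = _ := by ring
  calc (Λ'.card * τ ^ 2) ^ 3 * n ^ 2 = Λ'.card * (Λ'.card * n) ^ 2 * (τ ^ 3) ^ 2 := by ring
    _ ≤ (8 * t ^ 2) * (Λ'.card * n) ^ 2 * (τ ^ 3) ^ 2 := by gcongr
    _ = 8 * (t * (Λ'.card * n) * τ ^ 3) ^ 2 := by ring
    _ ≤ 8 * (3072 * q ^ 3 * s ^ 4) ^ 2 := by gcongr
    _ = 75497472 * q ^ 6 * s ^ 8 := by ring
    _ ≤ _ := by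
        gcongr
        norm_num

open Classical in
/-- **the bound for the energy in all characteristics** -/
theorem energy_all {q : ℕ} (hq : EqDist v q) (A S : Finset K) (hA0 : ∀ a ∈ A, a ≠ 0)
    (hA : 1 ≤ A.card) (ε : K) (hε : ε ≠ 0) (hS : ∀ u ∈ A, ∀ a ∈ A, u + ε * a ∈ S) (L : ℕ)
    (hL : A.card < 2 ^ L) :
    (mulEnergy A A) ^ 3 * A.card ^ 2 ≤ 2 ^ 33 * q ^ 6 * L ^ 3 * S.card ^ 8 := by
  obtain ⟨Λ, hΛ⟩ : ∃ Λ : Finset K, Λ = (A ×ˢ A).image fun p => p.2 / p.1 := ⟨_, rfl⟩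
  have hΛ0 : ∀ l ∈ Λ, l ≠ 0 := by
    intro l hl
    rw [hΛ, mem_image] at hl
    obtain ⟨p, hp, rfl⟩ := hl
    rw [mem_product] at hp
    exact div_ne_zero (hA0 _ hp.2) (hA0 _ hp.1)
  have h1 := energy_le A A hA0
  rw [← hΛ] at h1
  have h2 : ∀ l ∈ Λ, (Rl A A l).card ^ 2 ≤
      ∑ j ∈ range L, if 2 ^ j ≤ (Rl A A l).card then 4 * 4 ^ j else 0 := by
    intro l hl
    refine (sq_le_dyadic _ L (lt_of_le_of_lt (card_Rl_le A A l) hL)).trans (le_of_eq ?_)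
    rw [sum_filter]
  obtain ⟨M, hM⟩ : ∃ M : ℕ → ℕ, ∀ j, M j =
      (Λ.filter fun l => 2 ^ j ≤ (Rl A A l).card).card * 4 ^ j := ⟨_, fun _ => rfl⟩
  have h3 : mulEnergy A A ≤ 4 * ∑ j ∈ range L, M j := by
    calc mulEnergy A A ≤ ∑ l ∈ Λ, (Rl A A l).card ^ 2 := h1
      _ ≤ ∑ l ∈ Λ, ∑ j ∈ range L, (if 2 ^ j ≤ (Rl A A l).card then 4 * 4 ^ j else 0) :=
          sum_le_sum h2
      _ = ∑ j ∈ range L, ∑ l ∈ Λ, (if 2 ^ j ≤ (Rl A A l).card then 4 * 4 ^ j else 0) := sum_comm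
      _ = ∑ j ∈ range L, 4 * M j := by
          refine sum_congr rfl fun j _ => ?_
          rw [← sum_filter, sum_const, smul_eq_mul, hM]
          ring
      _ = _ := by rw [mul_sum]
  have hL0 : (range L).Nonempty := by
    rw [nonempty_range_iff]
    intro h
    rw [h] at hL
    omega
  obtain ⟨j, _, hmax⟩ := exists_max_image (range L) M hL0
  have h4 : ∑ i ∈ range L, M i ≤ L * M j := by
    refine (sum_le_card_nsmul _ _ _ hmax).trans (le_of_eq ?_)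
    rw [card_range, smul_eq_mul]
  have h5 := level v hq A Λ S hA0 hA hΛ0 ε hε hS j
  rw [← hM] at h5
  calc (mulEnergy A A) ^ 3 * A.card ^ 2 ≤ (4 * (L * M j)) ^ 3 * A.card ^ 2 := by
        gcongr
        exact h3.trans (Nat.mul_le_mul_left 4 h4)
    _ = 64 * L ^ 3 * (M j ^ 3 * A.card ^ 2) := by ring
    _ ≤ 64 * L ^ 3 * (2 ^ 27 * q ^ 6 * S.card ^ 8) := Nat.mul_le_mul_left _ h5
    _ = _ := by ring

end Pool.Agent.N9.SP
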