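import Pool.Agent.N9.SP.Laurent

/-!
# The Szemerédi-Trotter bound for Cartesian products in valued fields with finite residue field
-/

set_option autoImplicit false

open Finset
open scoped Pointwise

noncomputable section

namespace Pool.Agent.N9.SP

variable {K Γ : Type*} [Field K] [LinearOrderedCommGroupWithZero Γ] (v : Valuation K Γ)

/-- open balls -/
def OBall (D : Set K) : Prop := ∃ (c : K) (r : Γ), ∀ x, x ∈ D ↔ v (x - c) < r

theorem oball_nested {D E : Set K} (hD : OBall v D) (hE : OBall v E) {x : K} (hx : x ∈ D)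
    (hx' : x ∈ E) : D ⊆ E ∨ E ⊆ D := by
  obtain ⟨c, r, hc⟩ := hD
  obtain ⟨c', r', hc'⟩ := hE
  rw [hc] at hx
  rw [hc'] at hx'
  have key : ∀ (c c' : K) (r r' : Γ), r ≤ r' → v (x - c) < r → v (x - c') < r' →
      ∀ y, v (y - c) < r → v (y - c') < r' := by
    intro c c' r r' hr h1 h2 y hy
    have h3 : v (y - x) < r := by
      refine lt_of_le_of_lt (v_tri v y c x) (max_lt hy ?_)
      rw [v_symm]
      exact h1
    exact lt_of_le_of_lt (v_tri v y x c') (max_lt (lt_of_lt_of_le h3 hr) h2)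
  rcases le_total r r' with h | h
  · left
    intro y hy
    rw [hc] at hy
    rw [hc']
    exact key c c' r r' h hx hx' y hy
  · right
    intro y hy
    rw [hc'] at hy
    rw [hc]
    exact key c' c r' r h hx' hx y hy

theorem oball_preimage {D : Set K} (hD : OBall v D) {a : K} (ha : a ≠ 0) (b : K) :
    OBall v {x | a * x + b ∈ D} := by
  obtain ⟨c, r, hc⟩ := hD
  refine ⟨(c - b) / a, r / v a, fun x => ?_⟩
  have hva : v a ≠ 0 := (Valuation.ne_zero_iff v).2 ha
  have h1 : a * x + b - c = a * (x - (c - b) / a) := by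
    field_simp
    ring
  have h2 : x ∈ {x | a * x + b ∈ D} ↔ v (a * x + b - c) < r := hc _
  rw [h2, h1, map_mul, lt_div_iff₀ (zero_lt_iff.2 hva), mul_comm]

/-- a laminar family of `N` balls cuts the field into at most `N + 1` pieces -/
theorem laminar {ι : Type*} (I : Finset ι) (b : ι → Set K) (hb : ∀ i ∈ I, OBall v (b i))
    (X : Finset K) (hinj : ∀ x ∈ X, ∀ y ∈ X, (∀ i ∈ I, x ∈ b i ↔ y ∈ b i) → x = y) :
    X.card ≤ I.card + 1 := by
  classical
  have hmin : ∀ x : K, ∃ o : Option ι, (o = none ∧ ∀ i ∈ I, x ∉ b i) ∨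
      ∃ i ∈ I, o = some i ∧ x ∈ b i ∧ ∀ j ∈ I, x ∈ b j → b i ⊆ b j := by
    intro x
    by_cases h : ∃ i ∈ I, x ∈ b i
    · obtain ⟨i0, hi0, hx0⟩ := h
      have hne : (I.filter fun i => x ∈ b i).Nonempty := ⟨i0, mem_filter.2 ⟨hi0, hx0⟩⟩
      obtain ⟨i, hi⟩ := Finset.exists_minimalFor b (I.filter fun i => x ∈ b i) hne
      have hi1 := hi.1
      simp only [mem_filter] at hi1
      refine ⟨some i, Or.inr ⟨i, hi1.1, rfl, hi1.2, fun j hj hxj => ?_⟩⟩
      rcases oball_nested v (hb i hi1.1) (hb j hj) hi1.2 hxj with h | h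
      · exact h
      · exact hi.2 (mem_filter.2 ⟨hj, hxj⟩) h
    · push Not at h
      exact ⟨none, Or.inl ⟨rfl, h⟩⟩
  choose o ho using hmin
  have h1 : X.card ≤ (insertNone I).card := by
    refine card_le_card_of_injOn o ?_ ?_
    · intro x _
      rw [mem_coe]
      rcases ho x with ⟨h, _⟩ | ⟨i, hi, h, _⟩
      · rw [h]
        exact none_mem_insertNone
      · rw [h]
        exact some_mem_insertNone.2 hi
    · intro x hx y hy hxy
      refine hinj x hx y hy fun j hj => ?_
      rcases ho x with ⟨h, h'⟩ | ⟨i, hi, h, hxi, hmx⟩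
      · rcases ho y with ⟨k, k'⟩ | ⟨i', hi', k, _⟩
        · exact ⟨fun h2 => absurd h2 (h' j hj), fun h2 => absurd h2 (k' j hj)⟩
        · rw [h, k] at hxy
          exact absurd hxy (by simp)
      · rcases ho y with ⟨k, k'⟩ | ⟨i', hi', k, hyi, hmy⟩
        · rw [h, k] at hxy
          exact absurd hxy (by simp)
        · rw [h, k] at hxy
          have h3 : i = i' := Option.some_injective _ hxy
          subst h3
          exact ⟨fun h2 => hmx j hj h2 hyi, fun h2 => hmy j hj h2 hxi⟩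
  rwa [card_insertNone] at h1

theorem exists_reps {α β : Type*} [DecidableEq β] (W : Finset α) (C : α → β) :
    ∃ T ⊆ W, T.image C = W.image C ∧ Set.InjOn C T := by
  classical
  rcases W.eq_empty_or_nonempty with h | ⟨w0, hw0⟩
  · refine ⟨∅, empty_subset _, by rw [h], ?_⟩
    intro x hx
    exact absurd hx (by simp)
  · have h : ∀ c, ∃ a ∈ W, c ∈ W.image C → C a = c := by
      intro c
      by_cases hc : c ∈ W.image C
      · obtain ⟨a, ha, hac⟩ := mem_image.1 hc
        exact ⟨a, ha, fun _ => hac⟩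
      · exact ⟨w0, hw0, fun h => absurd h hc⟩
    choose g hg1 hg2 using h
    refine ⟨(W.image C).image g, ?_, ?_, ?_⟩
    · intro a ha
      obtain ⟨c, _, rfl⟩ := mem_image.1 ha
      exact hg1 c
    · ext c
      rw [mem_image]
      constructor
      · rintro ⟨a, ha, rfl⟩
        obtain ⟨c, hc, rfl⟩ := mem_image.1 ha
        rw [hg2 c hc]
        exact hc
      · intro hc
        exact ⟨g c, mem_image_of_mem g hc, hg2 c hc⟩
    · intro a ha b hb hab
      rw [mem_coe, mem_image] at ha hb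
      obtain ⟨c, hc, rfl⟩ := ha
      obtain ⟨d, hd, rfl⟩ := hb
      rw [hg2 c hc, hg2 d hd] at hab
      rw [hab]

/-- cutting a finite set into small pieces with few balls -/
theorem cutting {q : ℕ} (hq : EqDist v q) (t : ℕ) (ht : 1 ≤ t) (n : ℕ) :
    ∀ A : Finset K, A.card = n → ∃ 𝒟 : Finset (Set K), (∀ D ∈ 𝒟, OBall v D) ∧
      t * 𝒟.card ≤ q * A.card ∧
      ∀ Y : Finset K, Y ⊆ A → (∀ x ∈ Y, ∀ y ∈ Y, ∀ D ∈ 𝒟, x ∈ D ↔ y ∈ D) → Y.card ≤ t := by
  classical
  induction n using Nat.strong_induction_on with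
  | _ n ih =>
  intro A hA
  rcases Nat.lt_or_ge t A.card with hlt | hge
  swap
  · refine ⟨∅, ?_, ?_, ?_⟩
    · intro D hD
      exact absurd hD (notMem_empty D)
    · rw [card_empty, mul_zero]
      exact Nat.zero_le _
    · intro Y hY _
      exact (card_le_card hY).trans hge
  obtain ⟨Q, hQ⟩ : ∃ Q : Finset (K × K), Q = (A ×ˢ A).filter fun p =>
      t < (A.filter fun z => v (z - p.1) ≤ v (p.1 - p.2)).card := ⟨_, rfl⟩
  have hQne : Q.Nonempty := by
    obtain ⟨x, hx⟩ := card_pos.1 (show 0 < A.card by omega)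
    obtain ⟨y, hy, hmax⟩ := exists_max_image A (fun y => v (x - y)) ⟨x, hx⟩
    refine ⟨(x, y), ?_⟩
    rw [hQ, mem_filter, mem_product]
    refine ⟨⟨hx, hy⟩, ?_⟩
    rw [filter_true_of_mem]
    · exact hlt
    · intro z hz
      rw [v_symm]
      exact hmax z hz
  obtain ⟨⟨x, y⟩, hxy, hmin⟩ := exists_min_image Q (fun p => v (p.1 - p.2)) hQne
  obtain ⟨r, hr⟩ : ∃ r, r = v (x - y) := ⟨_, rfl⟩
  rw [hQ, mem_filter, mem_product] at hxy
  obtain ⟨⟨hx, hy⟩, hcard⟩ := hxy
  simp only at hx hy hcard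
  rw [← hr] at hcard
  obtain ⟨W, hW⟩ : ∃ W, W = A.filter fun z => v (z - x) ≤ r := ⟨_, rfl⟩
  rw [← hW] at hcard
  have hWA : W ⊆ A := by
    rw [hW]
    exact filter_subset _ _
  -- the children are small
  have hchild : ∀ z ∈ W, (A.filter fun w => v (w - z) < r).card ≤ t := by
    intro z hz
    by_contra hcon
    push Not at hcon
    have hne : (A.filter fun w => v (w - z) < r).Nonempty := by
      rw [← card_pos]
      omega
    obtain ⟨w0, hw0, hmax⟩ := exists_max_image _ (fun w => v (w - z)) hne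
    rw [mem_filter] at hw0
    have h1 : (z, w0) ∈ Q := by
      rw [hQ, mem_filter, mem_product]
      refine ⟨⟨hWA hz, hw0.1⟩, lt_of_lt_of_le hcon (card_le_card ?_)⟩
      intro w hw
      have h2 := hmax w hw
      rw [mem_filter] at hw ⊢
      refine ⟨hw.1, ?_⟩
      simp only
      rw [v_symm v z w0]
      exact h2
    have h2 := hmin _ h1
    simp only at h2
    rw [← hr, v_symm v z w0] at h2
    exact absurd hw0.2 (not_lt.2 h2)
  obtain ⟨C, hC⟩ : ∃ C : K → Set K, ∀ z w, w ∈ C z ↔ v (w - z) < r :=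
    ⟨fun z => {w | v (w - z) < r}, fun z w => Iff.rfl⟩
  have hr0 : r ≠ 0 := by
    intro h0
    have h1 : W ⊆ {x} := by
      intro z hz
      rw [hW, mem_filter, h0] at hz
      rw [mem_singleton]
      have h2 : v (z - x) = 0 := le_antisymm hz.2 zero_le
      exact sub_eq_zero.1 ((Valuation.zero_iff v).1 h2)
    have h2 := card_le_card h1
    rw [card_singleton] at h2
    omega
  have hself : ∀ z, z ∈ C z := by
    intro z
    rw [hC, sub_self, map_zero]
    exact zero_lt_iff.2 hr0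
  have hWW : ∀ z ∈ W, ∀ w ∈ W, v (z - w) ≤ r := by
    intro z hz w hw
    rw [hW, mem_filter] at hz hw
    refine (v_tri v z x w).trans (max_le hz.2 ?_)
    rw [v_symm]
    exact hw.2
  have hCcard : (W.image C).card ≤ q := by
    obtain ⟨T, hTW, hTC, hTinj⟩ := exists_reps W C
    rw [← hTC, card_image_of_injOn hTinj]
    refine hq T r fun z hz w hw hzw => ?_
    refine le_antisymm (hWW z (hTW hz) w (hTW hw)) ?_
    by_contra hlt'
    push Not at hlt'
    apply hzw
    apply hTinj hz hw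
    ext u
    rw [hC, hC]
    constructor
    · intro hu
      refine lt_of_le_of_lt (v_tri v u z w) (max_lt hu hlt')
    · intro hu
      refine lt_of_le_of_lt (v_tri v u w z) (max_lt hu ?_)
      rw [v_symm]
      exact hlt'
  obtain ⟨𝒟, h𝒟1, h𝒟2, h𝒟3⟩ := ih (A \ W).card (by
    rw [card_sdiff_of_subset hWA]
    have := card_le_card hWA
    omega) (A \ W) rfl
  refine ⟨𝒟 ∪ W.image C, ?_, ?_, ?_⟩
  · intro D hD
    rw [mem_union, mem_image] at hD
    rcases hD with hD | ⟨z, _, rfl⟩
    · exact h𝒟1 D hD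
    · exact ⟨z, r, fun w => hC z w⟩
  · have h1 := card_union_le 𝒟 (W.image C)
    have h2 : (A \ W).card + t ≤ A.card := by
      rw [card_sdiff_of_subset hWA]
      have := card_le_card hWA
      omega
    calc t * (𝒟 ∪ W.image C).card ≤ t * (𝒟.card + (W.image C).card) := Nat.mul_le_mul_left t h1
      _ = t * 𝒟.card + t * (W.image C).card := by ring
      _ ≤ q * (A \ W).card + t * q := add_le_add h𝒟2 (Nat.mul_le_mul_left t hCcard)
      _ = q * ((A \ W).card + t) := by ring
      _ ≤ q * A.card := Nat.mul_le_mul_left q h2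
  · intro Y hY hYc
    by_cases hex : ∃ y ∈ Y, y ∈ W
    · obtain ⟨y, hyY, hyW⟩ := hex
      refine le_trans (card_le_card ?_) (hchild y hyW)
      intro z hz
      rw [mem_filter]
      refine ⟨hY hz, ?_⟩
      have h1 := (hYc y hyY z hz (C y) (mem_union_right _ (mem_image_of_mem C hyW))).1 (hself y)
      rwa [hC] at h1
    · push Not at hex
      refine h𝒟3 Y ?_ ?_
      · intro z hz
        rw [mem_sdiff]
        exact ⟨hY hz, hex z hz⟩
      · intro a ha b hb D hD
        exact hYc a ha b hb D (mem_union_left _ hD)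

/-- the number of elements is at most the number of the classes plus the number of the pairs in the
same class -/
theorem card_le_classes {α β : Type*} [DecidableEq α] [DecidableEq β] (P : Finset α) (c : α → β) :
    P.card ≤ (P.image c).card +
      ((P ×ˢ P).filter fun p => p.1 ≠ p.2 ∧ c p.1 = c p.2).card := by
  obtain ⟨T, hT1, hT2, hT3⟩ := exists_reps P c
  have h1 : P.card = T.card + (P \ T).card := by
    rw [card_sdiff_of_subset hT1]
    have := card_le_card hT1
    omega
  rw [h1, ← hT2, card_image_of_injOn hT3]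
  refine Nat.add_le_add_left ?_ _
  have h2 : ∀ x, ∃ y, x ∈ P → y ∈ T ∧ c x = c y := by
    intro x
    by_cases hx : x ∈ P
    · have h3 : c x ∈ T.image c := by
        rw [hT2]
        exact mem_image_of_mem c hx
      obtain ⟨y, hy, hyx⟩ := mem_image.1 h3
      exact ⟨y, fun _ => ⟨hy, hyx.symm⟩⟩
    · exact ⟨x, fun h => absurd h hx⟩
  choose g hg using h2
  refine card_le_card_of_injOn (fun x => (x, g x)) ?_ ?_
  · intro x hx
    rw [mem_coe, mem_sdiff] at hx
    rw [mem_coe, mem_filter, mem_product]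
    obtain ⟨h3, h4⟩ := hg x hx.1
    refine ⟨⟨hx.1, hT1 h3⟩, ?_, h4⟩
    intro h5
    simp only at h5
    rw [← h5] at h3
    exact hx.2 h3
  · intro x _ y _ hxy
    exact (Prod.mk.inj hxy).1

open Classical in
/-- the number of the pairs in the same class -/
theorem pairs_le (A : Finset K) (𝒟 : Finset (Set K)) (t : ℕ)
    (h : ∀ Y : Finset K, Y ⊆ A → (∀ x ∈ Y, ∀ y ∈ Y, ∀ D ∈ 𝒟, x ∈ D ↔ y ∈ D) → Y.card ≤ t) :
    ((A ×ˢ A).filter fun p => ∀ D ∈ 𝒟, p.1 ∈ D ↔ p.2 ∈ D).card ≤ t * A.card := by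
  have h1 : ((A ×ˢ A).filter fun p => ∀ D ∈ 𝒟, p.1 ∈ D ↔ p.2 ∈ D).card =
      ∑ x ∈ A, (A.filter fun y => ∀ D ∈ 𝒟, x ∈ D ↔ y ∈ D).card := by
    rw [card_filter, sum_product]
    refine sum_congr rfl fun x _ => ?_
    rw [card_filter]
  rw [h1]
  refine (sum_le_card_nsmul A _ t fun x hx => ?_).trans (le_of_eq ?_)
  · refine h _ (filter_subset _ _) ?_
    intro y hy z hz D hD
    rw [mem_filter] at hy hz
    exact (hy.2 D hD).symm.trans (hz.2 D hD)
  · rw [smul_eq_mul, mul_comm]

open Classical in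
/-- **incidences between a Cartesian product and lines** -/
theorem incidence {q : ℕ} (hq : EqDist v q) (A B : Finset K) (L : Finset (K × K))
    (hL : ∀ l ∈ L, l.1 ≠ 0) (s t : ℕ) (hs : 1 ≤ s) (ht : 1 ≤ t) :
    ∃ M N : ℕ, s * M ≤ q * A.card ∧ t * N ≤ q * B.card ∧
      ∑ l ∈ L, (A.filter fun x => l.1 * x + l.2 ∈ B).card ≤
        L.card * (M + N + 1) + (s * A.card) * (t * B.card) := by
  obtain ⟨𝒟, h1, h2, h3⟩ := cutting v hq s hs A.card A rfl
  obtain ⟨ℰ, k1, k2, k3⟩ := cutting v hq t ht B.card B rfl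
  refine ⟨𝒟.card, ℰ.card, h2, k2, ?_⟩
  obtain ⟨c, hc⟩ : ∃ c : K × K → K → Finset (Set K) × Finset (Set K), ∀ l x, c l x =
      (𝒟.filter fun D => x ∈ D, ℰ.filter fun E => l.1 * x + l.2 ∈ E) := ⟨_, fun _ _ => rfl⟩
  have hceq : ∀ l x y, c l x = c l y ↔ (∀ D ∈ 𝒟, x ∈ D ↔ y ∈ D) ∧
      ∀ E ∈ ℰ, l.1 * x + l.2 ∈ E ↔ l.1 * y + l.2 ∈ E := by
    intro l x y
    rw [hc, hc, Prod.mk.injEq]
    constructor
    · rintro ⟨e1, e2⟩
      constructor
      · intro D hD
        have := Finset.ext_iff.1 e1 D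
        simp only [mem_filter, hD, true_and] at this
        exact this
      · intro E hE
        have := Finset.ext_iff.1 e2 E
        simp only [mem_filter, hE, true_and] at this
        exact this
    · rintro ⟨e1, e2⟩
      constructor
      · exact filter_congr fun D hD => e1 D hD
      · exact filter_congr fun E hE => e2 E hE
  obtain ⟨P, hP⟩ : ∃ P : K × K → Finset K, ∀ l, P l = A.filter fun x => l.1 * x + l.2 ∈ B :=
    ⟨_, fun _ => rfl⟩
  -- few classes on each line
  have hcl : ∀ l ∈ L, ((P l).image (c l)).card ≤ 𝒟.card + ℰ.card + 1 := by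
    intro l hl
    obtain ⟨T, hT1, hT2, hT3⟩ := exists_reps (P l) (c l)
    rw [← hT2, card_image_of_injOn hT3]
    have h4 := laminar v (𝒟.disjSum ℰ)
      (fun i => Sum.elim (fun D => D) (fun E => {x | l.1 * x + l.2 ∈ E}) i) (by
        intro i hi
        rcases i with D | E
        · exact h1 D (inl_mem_disjSum.1 hi)
        · exact oball_preimage v (k1 E (inr_mem_disjSum.1 hi)) (hL l hl) l.2) T (by
        intro x hx y hy hxy
        apply hT3 hx hy
        rw [hceq]
        constructor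
        · intro D hD
          exact hxy (Sum.inl D) (inl_mem_disjSum.2 hD)
        · intro E hE
          exact hxy (Sum.inr E) (inr_mem_disjSum.2 hE))
    rwa [card_disjSum] at h4
  have hpair : ∑ l ∈ L, ((P l ×ˢ P l).filter fun p => p.1 ≠ p.2 ∧ c l p.1 = c l p.2).card ≤
      (s * A.card) * (t * B.card) := by
    refine le_trans ?_ (Nat.mul_le_mul (pairs_le A 𝒟 s h3) (pairs_le B ℰ t k3))
    rw [← card_product, ← card_sigma]
    refine card_le_card_of_injOn (fun p : (Σ _ : K × K, K × K) =>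
      (p.2, (p.1.1 * p.2.1 + p.1.2, p.1.1 * p.2.2 + p.1.2))) ?_ ?_
    · rintro ⟨l, x, y⟩ hp
      rw [mem_coe, mem_sigma, mem_filter, mem_product, hP, mem_filter, mem_filter] at hp
      obtain ⟨_, ⟨hx, hy⟩, _, hxy⟩ := hp
      simp only at hx hy hxy
      rw [hceq] at hxy
      rw [mem_coe, mem_product, mem_filter, mem_filter, mem_product, mem_product]
      exact ⟨⟨⟨hx.1, hy.1⟩, hxy.1⟩, ⟨⟨hx.2, hy.2⟩, hxy.2⟩⟩
    · rintro ⟨l, x, y⟩ hp ⟨l', x', y'⟩ hp' heq
      rw [mem_coe, mem_sigma, mem_filter] at hp hp'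
      simp only [Prod.mk.injEq] at heq
      obtain ⟨⟨rfl, rfl⟩, e1, e2⟩ := heq
      have hne : x - y ≠ 0 := sub_ne_zero.2 hp.2.2.1
      have e3 : (l.1 - l'.1) * (x - y) = 0 := by linear_combination e1 - e2
      have e4 : l.1 = l'.1 := by
        rcases mul_eq_zero.1 e3 with h | h
        · exact sub_eq_zero.1 h
        · exact absurd h hne
      have e5 : l.2 = l'.2 := by
        rw [e4] at e1
        exact add_left_cancel e1
      have e6 : l = l' := Prod.ext e4 e5
      rw [e6]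
  calc ∑ l ∈ L, (A.filter fun x => l.1 * x + l.2 ∈ B).card = ∑ l ∈ L, (P l).card :=
        sum_congr rfl fun l _ => by rw [hP]
    _ ≤ ∑ l ∈ L, (((P l).image (c l)).card +
          ((P l ×ˢ P l).filter fun p => p.1 ≠ p.2 ∧ c l p.1 = c l p.2).card) :=
        sum_le_sum fun l _ => card_le_classes (P l) (c l)
    _ = ∑ l ∈ L, ((P l).image (c l)).card +
          ∑ l ∈ L, ((P l ×ˢ P l).filter fun p => p.1 ≠ p.2 ∧ c l p.1 = c l p.2).card :=
        sum_add_distrib
    _ ≤ _ := by
        refine add_le_add ?_ hpair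
        refine (sum_le_card_nsmul L _ _ hcl).trans (le_of_eq ?_)
        rw [smul_eq_mul]

end Pool.Agent.N9.SP
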