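import Pool.Agent.N9.SP.Energy

/-!
# Sums and products in valued fields with finite residue field: Laurent series over finite fields
-/

set_option autoImplicit false

open Finset
open scoped Pointwise LaurentSeries PowerSeries

noncomputable section

namespace Pool.Agent.N9.SP

theorem eqDist_of_map {K Γ ρ : Type*} [Field K] [LinearOrderedCommGroupWithZero Γ]
    (v : Valuation K Γ) [Finite ρ] [Nonempty ρ] (f : K → ρ)
    (hf : ∀ x y, v x ≤ 1 → v y ≤ 1 → f x = f y → v (x - y) < 1) : EqDist v (Nat.card ρ) := by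
  classical
  intro T γ hT
  rcases Nat.lt_or_ge T.card 2 with h | h
  · have := Nat.card_pos (α := ρ)
    omega
  obtain ⟨x0, hx0, x1, hx1, hne⟩ := one_lt_card.1 h
  have hγ : γ ≠ 0 := by
    rw [← hT x1 hx1 x0 hx0 hne.symm, Valuation.ne_zero_iff]
    exact sub_ne_zero.2 hne.symm
  have hd : v (x1 - x0) = γ := hT x1 hx1 x0 hx0 hne.symm
  have hle : ∀ x ∈ T, v ((x - x0) / (x1 - x0)) ≤ 1 := by
    intro x hx
    rw [map_div₀, hd]
    rcases eq_or_ne x x0 with h1 | h1
    · rw [h1, sub_self, map_zero, zero_div]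
      exact zero_le
    · rw [hT x hx x0 hx0 h1, div_self hγ]
  have hinj : Set.InjOn (fun x => f ((x - x0) / (x1 - x0))) T := by
    intro x hx y hy hxy
    by_contra hne'
    have h1 := hf _ _ (hle x hx) (hle y hy) hxy
    have h2 : (x - x0) / (x1 - x0) - (y - x0) / (x1 - x0) = (x - y) / (x1 - x0) := by
      rw [← sub_div]
      congr 1
      ring
    rw [h2, map_div₀, hd, hT x hx y hy hne', div_self hγ] at h1
    exact lt_irrefl _ h1
  rw [← card_image_of_injOn hinj]
  have := Fintype.ofFinite ρ
  rw [Nat.card_eq_fintype_card]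
  exact card_le_univ _

/-- the residue field bounds the number of the elements with equal distances -/
theorem eqDist_residue {K Γ : Type*} [Field K] [LinearOrderedCommGroupWithZero Γ]
    (v : Valuation K Γ) [Finite (IsLocalRing.ResidueField v.valuationSubring)] :
    EqDist v (Nat.card (IsLocalRing.ResidueField v.valuationSubring)) := by
  classical
  refine eqDist_of_map v (fun x => if h : v x ≤ 1 then
    IsLocalRing.residue v.valuationSubring ⟨x, h⟩ else 0) ?_
  intro x y hx hy h
  simp only [dif_pos hx, dif_pos hy] at h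
  rw [← sub_eq_zero, ← map_sub, IsLocalRing.residue_eq_zero_iff] at h
  exact (v.mem_maximalIdeal_iff).1 h

theorem eqDist_laurent (F : Type*) [Field F] [Finite F] :
    EqDist (Valued.v : Valuation F⸨X⸩ (WithZero (Multiplicative ℤ))) (Nat.card F) := by
  refine eqDist_of_map _ (fun x => x.coeff 0) ?_
  intro x y hx hy h
  have h0 : (1 : WithZero (Multiplicative ℤ)) = WithZero.exp (-(0 : ℤ)) := by simp
  rw [h0] at hx hy
  have hx' := (LaurentSeries.valuation_le_iff_coeff_lt_eq_zero F).1 hx
  have hy' := (LaurentSeries.valuation_le_iff_coeff_lt_eq_zero F).1 hy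
  have h1 : Valued.v (x - y) ≤ WithZero.exp (-(1 : ℤ)) := by
    rw [LaurentSeries.valuation_le_iff_coeff_lt_eq_zero]
    intro n hn
    rw [HahnSeries.coeff_sub]
    rcases (show n < 0 ∨ n = 0 by omega) with h2 | h2
    · rw [hx' n h2, hy' n h2, sub_zero]
    · rw [h2]
      exact sub_eq_zero.2 h
  refine lt_of_le_of_lt h1 ?_
  rw [← WithZero.exp_zero, WithZero.exp_lt_exp]
  norm_num

theorem v_two (F : Type*) [Field F] (h2 : (2 : F) ≠ 0) :
    (Valued.v : Valuation F⸨X⸩ (WithZero (Multiplicative ℤ))) 2 = 1 := by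
  have h1 : (Valued.v : Valuation F⸨X⸩ (WithZero (Multiplicative ℤ))) 2 ≤ 1 := by
    rw [LaurentSeries.val_le_one_iff_eq_coe]
    refine ⟨2, ?_⟩
    exact map_ofNat (HahnSeries.ofPowerSeries ℤ F) 2
  have h3 : (Valued.v : Valuation F⸨X⸩ (WithZero (Multiplicative ℤ)))
      (HahnSeries.ofPowerSeries ℤ F (PowerSeries.C (2⁻¹ : F))) ≤ 1 := by
    rw [LaurentSeries.val_le_one_iff_eq_coe]
    exact ⟨_, rfl⟩
  have h4 : (2 : F⸨X⸩) * HahnSeries.ofPowerSeries ℤ F (PowerSeries.C (2⁻¹ : F)) = 1 := by
    have h5 : (2 : F⸨X⸩) = HahnSeries.ofPowerSeries ℤ F (PowerSeries.C (2 : F)) := by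
      rw [map_ofNat, map_ofNat]
    rw [h5, ← map_mul, ← map_mul, mul_inv_cancel₀ h2, map_one, map_one]
  have h5 := congrArg (Valued.v : Valuation F⸨X⸩ (WithZero (Multiplicative ℤ))) h4
  rw [map_mul, map_one] at h5
  refine le_antisymm h1 ?_
  rw [← h5]
  exact mul_le_of_le_one_right' h3

open Cardinal in
/-- a ring of polynomials in countably many variables embeds in each uncountable extension of the
finite field of the coefficients -/
theorem exists_embed (F K : Type) [Field F] [Finite F] [Field K] [Algebra F K]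
    (hunc : ¬ Countable K) (σ : Type) [Countable σ] :
    ∃ φ : MvPolynomial σ F →+* K, Function.Injective φ := by
  obtain ⟨ι, x, hx⟩ := exists_isTranscendenceBasis' F K
  have hι : ¬ Countable ι := by
    intro hc
    apply hunc
    have h1 : Algebra.IsAlgebraic (Algebra.adjoin F (Set.range x)) K := hx.isAlgebraic
    have h2 : Countable (MvPolynomial ι F) := by
      have h3 : #(MvPolynomial ι F) ≤ max (max #F #ι) ℵ₀ := MvPolynomial.cardinalMk_le_max
      rw [← Cardinal.mk_le_aleph0_iff]
      refine h3.trans (max_le (max_le ?_ ?_) le_rfl)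
      · exact Cardinal.mk_le_aleph0
      · exact Cardinal.mk_le_aleph0
    have h3 : Countable (Algebra.adjoin F (Set.range x)) :=
      (hx.1.aevalEquiv.symm.injective).countable
    have h4 := Algebra.IsAlgebraic.cardinalMk_le_max (Algebra.adjoin F (Set.range x)) K
    rw [← Cardinal.mk_le_aleph0_iff]
    refine h4.trans (max_le ?_ le_rfl)
    exact Cardinal.mk_le_aleph0
  have h1 : #σ ≤ #ι := by
    have h2 : #σ ≤ ℵ₀ := Cardinal.mk_le_aleph0
    have h3 : ℵ₀ < #ι := by
      rw [← not_le, Cardinal.mk_le_aleph0_iff]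
      exact hι
    exact h2.trans h3.le
  obtain ⟨f⟩ := h1
  have h5 : AlgebraicIndependent F (x ∘ f) := hx.1.comp f f.injective
  exact ⟨(MvPolynomial.aeval (x ∘ f)).toRingHom, h5⟩

open Cardinal in
theorem not_countable_laurent (F : Type) [Field F] : ¬ Countable F⸨X⸩ := by
  intro hc
  have hinj : Function.Injective (fun s : Set ℕ => HahnSeries.ofPowerSeries ℤ F
      (PowerSeries.mk fun n => open Classical in if n ∈ s then (1 : F) else 0)) := by
    intro s t hst
    have h1 := HahnSeries.ofPowerSeries_injective hst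
    ext n
    have h2 := congrArg (PowerSeries.coeff n) h1
    rw [PowerSeries.coeff_mk, PowerSeries.coeff_mk] at h2
    by_cases hs : n ∈ s <;> by_cases ht : n ∈ t
    · simp [hs, ht]
    · rw [if_pos hs, if_neg ht] at h2
      exact absurd h2 one_ne_zero
    · rw [if_neg hs, if_pos ht] at h2
      exact absurd h2.symm one_ne_zero
    · simp [hs, ht]
  have h3 : Countable (Set ℕ) := hinj.countable
  have h4 : #(Set ℕ) ≤ ℵ₀ := Cardinal.mk_le_aleph0
  rw [mk_set, mk_nat] at h4
  exact absurd h4 (not_le.2 (cantor ℵ₀))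

theorem exists_embed_laurent (F : Type) [Field F] [Finite F] (σ : Type) [Countable σ] :
    ∃ φ : MvPolynomial σ F →+* F⸨X⸩, Function.Injective φ :=
  exists_embed F F⸨X⸩ (not_countable_laurent F) σ

end Pool.Agent.N9.SP
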